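import Pool.Agent.AEWL.DefsL

/-!
# Pieces without long directed paths are good
-/

set_option autoImplicit false

namespace AEW

open Finset AE15 AED AELT
open scoped Classical

/-- bound for the number of vertices, per tree, which are joined to the root by directed paths with at most `l` arcs -/
def bn (b : ℕ) : ℕ → ℕ
  | 0 => 0
  | l + 1 => 1 + b * bn b l

theorem rl_le_node {e d : Bool} {c s : Fd} : rl e s ≤ rl e (.node d c s) := le_max_right _ _

theorem rl_lt_node {e : Bool} {c s : Fd} : rl e c + 1 ≤ rl e (.node e c s) := by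
  simp only [rl, if_true]
  exact le_max_left _ _

theorem clo_bd {b : ℕ} (σ : Bool) (l : ℕ) : ∀ c : Fd, c.Deg b → rl (!σ) c ≤ l → (clo σ c).size ≤ c.len * bn b l := by
  induction l with
  | zero =>
    intro c
    induction c with
    | nil => intro _ _; exact Nat.zero_le _
    | node d c s ihc ihs =>
      intro hD hr
      by_cases hd : d = σ
      · subst hd
        simp only [clo, if_true]
        have := ihs hD.2.2 (rl_le_node.trans hr)
        simp only [bn, mul_zero] at this ⊢
        exact this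
      · have hd' : d = !σ := by cases d <;> cases σ <;> simp_all
        subst hd'
        have := rl_lt_node (e := !σ) (c := c) (s := s)
        omega
  | succ l ihl =>
    intro c
    induction c with
    | nil => intro _ _; exact Nat.zero_le _
    | node d c s ihc ihs =>
      intro hD hr
      have h1 := ihs hD.2.2 (rl_le_node.trans hr)
      by_cases hd : d = σ
      · subst hd
        simp only [clo, if_true, Fd.len]
        rw [Nat.add_mul]
        omega
      · have hd' : d = !σ := by cases d <;> cases σ <;> simp_all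
        subst hd'
        have h2 := rl_lt_node (e := !σ) (c := c) (s := s)
        have h3 := ihl c hD.2.1 (by omega)
        have h4 : c.len * bn b l ≤ b * bn b l := Nat.mul_le_mul_right _ hD.1
        simp only [clo, hd, if_false, Fd.size, Fd.len]
        rw [Nat.add_mul, one_mul]
        have h5 : bn b (l + 1) = 1 + b * bn b l := rfl
        omega

theorem Bd.rl_le {l : ℕ} {c : Fd} (h : Bd l c) (e : Bool) : rl e c ≤ l := by
  cases c with
  | nil => exact Nat.zero_le _
  | node d c s => exact h.1 e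

theorem bd_good1 (b l : ℕ) {ε : ℝ} (hε : 0 < ε) : ∃ a₀ : ℕ, ∀ q : Fd, q.len ≤ b → q.Deg b → Bd l q →
    a₀ ≤ q.size + 1 → Good1 ε q := by
  obtain ⟨a₀, ha⟩ := exists_nat_ge ((b * bn b l + 1 : ℝ) / ε)
  refine ⟨a₀, fun q h1 h2 h3 h4 σ => ?_⟩
  have h5 := clo_bd σ l q h2 (h3.rl_le _)
  have h6 : q.len * bn b l ≤ b * bn b l := Nat.mul_le_mul_right _ h1
  have h7 : ((clo σ q).size : ℝ) ≤ b * bn b l := by exact_mod_cast h5.trans h6
  have h8 : (a₀ : ℝ) ≤ q.size + 1 := by exact_mod_cast h4
  rw [div_le_iff₀' hε] at ha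
  have h9 : ε * a₀ ≤ ε * (q.size + 1) := mul_le_mul_of_nonneg_left h8 hε.le
  linarith

/-- consecutive arcs of the path with the same direction -/
theorem run_le {l : ℕ} {e : Bool} (M : Cx) : ∀ m n : ℕ, (∀ i < n, M.sg[m + i]? = some e) → Bd l M.un →
    (m = 0 → n ≤ rl e M.un) ∧ n ≤ l := by
  induction M with
  | here s =>
    intro m n h _
    have hn : n = 0 := by
      by_contra h0
      have := h 0 (by omega)
      simp [Cx.sg] at this
    subst hn
    exact ⟨fun _ => Nat.zero_le _, Nat.zero_le _⟩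
  | dn d t s ih =>
    intro m n h hB
    obtain ⟨b1, b2, b3⟩ := hB
    cases m with
    | zero =>
      cases n with
      | zero => exact ⟨fun _ => Nat.zero_le _, Nat.zero_le _⟩
      | succ n =>
        have h0 := h 0 (by omega)
        simp only [Cx.sg, Nat.add_zero, List.getElem?_cons_zero, Option.some.injEq] at h0
        subst h0
        have h1 := (ih 0 n (fun i hi => by
          have := h (i + 1) (by omega)
          rw [show 0 + (i + 1) = (0 + i) + 1 by omega] at this
          simpa only [Cx.sg, List.getElem?_cons_succ] using this) b2).1 rfl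
        have h2 := rl_lt_node (e := d) (c := t.un) (s := s)
        have h3 := b1 d
        exact ⟨fun _ => by simp only [Cx.un]; omega, by omega⟩
    | succ m =>
      have h1 := (ih m n (fun i hi => by
        have := h i hi
        rw [show m + 1 + i = (m + i) + 1 by omega] at this
        simpa only [Cx.sg, List.getElem?_cons_succ] using this) b2).2
      exact ⟨fun h0 => absurd h0 (by omega), h1⟩
  | nx d c t ih =>
    intro m n h hB
    obtain ⟨b1, b2, b3⟩ := hB
    obtain ⟨h1, h2⟩ := ih m n h b3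
    exact ⟨fun h0 => (h1 h0).trans rl_le_node, h2⟩

theorem occ_of {l : ℕ} {M : Cx} (hB : Bd l M.un) (σ : Bool) {m : ℕ} (hm : m + (l + 1) ≤ M.sg.length) :
    Occ σ m (l + 1) M := by
  by_contra hno
  have h1 : ∀ i < l + 1, M.sg[m + i]? = some (!σ) := by
    intro i hi
    have h2 : m + i < M.sg.length := by omega
    rw [List.getElem?_eq_getElem h2]
    congr 1
    by_contra h3
    apply hno
    refine ⟨i, hi, ?_⟩
    rw [List.getElem?_eq_getElem h2]
    congr 1
    revert h3
    cases M.sg[m + i] <;> cases σ <;> simp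
  have := (run_le M m (l + 1) h1 hB).2
  omega

theorem tp_bd {b l : ℕ} (σ : Bool) (M : Cx) : ∀ n : ℕ, M.un.Deg b → Bd l M.un →
    tp σ (n + 1) M ≤ M.un.len * (bn b l + 1) + n * (b * (bn b l + 1)) := by
  induction M with
  | here s =>
    intro n hD hB
    have h1 := clo_bd σ l s hD (hB.rl_le _)
    simp only [tp, Cx.un]
    have h2 : s.len * bn b l ≤ s.len * (bn b l + 1) := Nat.mul_le_mul_left _ (Nat.le_succ _)
    exact (h1.trans h2).trans (Nat.le_add_right _ _)
  | dn d t s ih =>
    intro n hD hB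
    obtain ⟨d1, d2, d3⟩ := hD
    obtain ⟨b1, b2, b3⟩ := hB
    have h1 := clo_bd σ l s d3 (b3.rl_le _)
    have h2 : s.len * bn b l ≤ s.len * (bn b l + 1) := Nat.mul_le_mul_left _ (Nat.le_succ _)
    cases n with
    | zero =>
      simp only [tp, Cx.un, Fd.len, zero_mul, add_zero]
      rw [Nat.add_mul, one_mul]
      omega
    | succ n =>
      have h3 := ih n d2 b2
      have h4 : t.un.len * (bn b l + 1) ≤ b * (bn b l + 1) := Nat.mul_le_mul_right _ d1
      have h5 : (n + 1) * (b * (bn b l + 1)) = n * (b * (bn b l + 1)) + b * (bn b l + 1) := by ring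
      have h6 : (s.len + 1) * (bn b l + 1) = s.len * (bn b l + 1) + (bn b l + 1) := by ring
      simp only [Cx.un, Fd.len]
      rw [h5, h6]
      have h7 : tp σ (n + 1 + 1) (.dn d t s) = (clo σ s).size + 1 + tp σ (n + 1) t := rfl
      rw [h7]
      omega
  | nx d c t ih =>
    intro n hD hB
    obtain ⟨d1, d2, d3⟩ := hD
    obtain ⟨b1, b2, b3⟩ := hB
    have h3 := ih n d3 b3
    have h6 : (t.un.len + 1) * (bn b l + 1) = t.un.len * (bn b l + 1) + (bn b l + 1) := by ring
    have h7 : tp σ (n + 1) (.nx d c t) = (if d = σ then 0 else (clo σ c).size + 1) + tp σ (n + 1) t := rfl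
    have h8 : (if d = σ then 0 else (clo σ c).size + 1) ≤ bn b l := by
      split_ifs with hd
      · exact Nat.zero_le _
      · have hd' : d = !σ := by cases d <;> cases σ <;> simp_all
        subst hd'
        have h9 := rl_lt_node (e := !σ) (c := c) (s := t.un)
        have h10 := b1 (!σ)
        obtain ⟨l', rfl⟩ : ∃ l', l = l' + 1 := ⟨l - 1, by omega⟩
        have h11 := clo_bd σ l' c d2 (by omega)
        have h12 : c.len * bn b l' ≤ b * bn b l' := Nat.mul_le_mul_right _ d1
        have h13 : bn b (l' + 1) = 1 + b * bn b l' := rfl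
        omega
    simp only [Cx.un, Fd.len]
    rw [h6, h7]
    omega

theorem tp_bd' {b l : ℕ} (σ : Bool) {M : Cx} (n : ℕ) (hD : M.un.Deg b) (hl : M.un.len ≤ b) (hB : Bd l M.un) :
    tp σ n M ≤ n * (b * (bn b l + 1)) := by
  cases n with
  | zero =>
    have : tp σ 0 M = 0 := by cases M <;> rfl
    omega
  | succ n =>
    have h1 := tp_bd σ M n hD hB
    have h4 : M.un.len * (bn b l + 1) ≤ b * (bn b l + 1) := Nat.mul_le_mul_right _ hl
    have h5 : (n + 1) * (b * (bn b l + 1)) = n * (b * (bn b l + 1)) + b * (bn b l + 1) := by ring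
    omega

theorem bt_bd {b l : ℕ} (σ : Bool) (n : ℕ) (M : Cx) : M.un.Deg b → M.un.len ≤ b → Bd l M.un →
    bt σ n M ≤ n * (b * (bn b l + 1)) := by
  induction M with
  | here s => intro hD hl hB; exact tp_bd' σ n hD hl hB
  | dn d t s ih =>
    intro hD hl hB
    by_cases h : (Cx.dn d t s).sg.length < n
    · rw [bt_eq h]
      exact tp_bd' σ n hD hl hB
    · simp only [bt, if_neg h]
      exact ih hD.2.1 hD.1 hB.2.1
  | nx d c t ih =>
    intro hD hl hB
    by_cases h : (Cx.nx d c t).sg.length < n
    · rw [bt_eq h]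
      exact tp_bd' σ n hD hl hB
    · simp only [bt, if_neg h]
      simp only [Cx.un, Fd.len] at hl
      exact ih hD.2.2 (by omega) hB.2.2

theorem bd_good2 (b l : ℕ) {ε : ℝ} (hε : 0 < ε) : ∃ a₀ : ℕ, ∀ M : Cx, M.un.len ≤ b → M.un.Deg b → Bd l M.un →
    3 * (l + 1) ≤ M.sg.length → a₀ ≤ M.un.size + 1 → Good2 ε M := by
  obtain ⟨a₀, ha⟩ := exists_nat_ge ((((l + 1) * (b * (bn b l + 1)) : ℕ) + 1 : ℝ) / ε)
  refine ⟨a₀, fun M h1 h2 h3 h4 h5 => ?_⟩
  have h8 : (a₀ : ℝ) ≤ M.un.size + 1 := by exact_mod_cast h5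
  rw [div_le_iff₀' hε] at ha
  have h9 : ε * a₀ ≤ ε * (M.un.size + 1) := mul_le_mul_of_nonneg_left h8 hε.le
  refine good2_of h4 (fun σ => occ_of h3 σ (by omega)) (fun σ => occ_of h3 σ (by omega))
    (fun σ => occ_of h3 σ (by omega)) (fun σ => ?_) (fun σ => ?_)
  · have h10 : (tp σ (l + 1) M : ℝ) ≤ ((l + 1) * (b * (bn b l + 1)) : ℕ) := by
      exact_mod_cast tp_bd' σ (l + 1) h2 h1 h3
    linarith
  · have h10 : (bt σ (l + 1) M : ℝ) ≤ ((l + 1) * (b * (bn b l + 1)) : ℕ) := by
      exact_mod_cast bt_bd σ (l + 1) M h2 h1 h3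
    linarith

end AEW
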