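import Pool.Agent.AEWL.DefsE
import Pool.Agent.AEWL.Bd
import Pool.Agent.AEW.XAnti

/-!
# Large pieces without long directed paths contain movable centres of both types
-/

set_option autoImplicit false

namespace AEW

open Finset AE15 AED AELT
open scoped Classical

theorem rl_cmp_le {e d : Bool} {B : Cx} (U : Cx) : rl e U.un ≤ rl e (U.cmp d B).un := by
  induction U with
  | here s => exact rl_le_node
  | dn d1 t s ih =>
    simp only [Cx.cmp, Cx.un, rl]
    split_ifs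
    · omega
    · omega
  | nx d1 c t ih =>
    simp only [Cx.cmp, Cx.un, rl]
    split_ifs
    · omega
    · omega

theorem rl_plug_le {e : Bool} {p : Bool × Fd} (U : Cx) : rl e U.un ≤ rl e (U.plug p) := by
  induction U with
  | here s => exact rl_le_node
  | dn d1 t s ih =>
    simp only [Cx.plug, Cx.un, rl]
    split_ifs
    · omega
    · omega
  | nx d1 c t ih =>
    simp only [Cx.plug, Cx.un, rl]
    split_ifs
    · omega
    · omega

theorem Bd.cmp {l : ℕ} {d : Bool} {B : Cx} (U : Cx) : Bd l (U.cmp d B).un → Bd l U.un ∧ Bd l B.un := by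
  induction U with
  | here s =>
    rintro ⟨-, h2, h3⟩
    exact ⟨h3, h2⟩
  | dn d1 t s ih =>
    rintro ⟨h1, h2, h3⟩
    refine ⟨⟨fun e => le_trans ?_ (h1 e), (ih h2).1, h3⟩, (ih h2).2⟩
    have := rl_cmp_le (e := e) (d := d) (B := B) t
    simp only [rl]
    split_ifs
    · omega
    · omega
  | nx d1 c t ih =>
    rintro ⟨h1, h2, h3⟩
    refine ⟨⟨fun e => le_trans ?_ (h1 e), h2, (ih h3).1⟩, (ih h3).2⟩
    have := rl_cmp_le (e := e) (d := d) (B := B) t
    simp only [rl]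
    split_ifs
    · omega
    · omega

theorem Bd.plug {l : ℕ} {p : Bool × Fd} (U : Cx) : Bd l (U.plug p) → Bd l U.un ∧ Bd l p.2 := by
  induction U with
  | here s =>
    rintro ⟨-, h2, h3⟩
    exact ⟨h3, h2⟩
  | dn d1 t s ih =>
    rintro ⟨h1, h2, h3⟩
    refine ⟨⟨fun e => le_trans ?_ (h1 e), (ih h2).1, h3⟩, (ih h2).2⟩
    have := rl_plug_le (e := e) (p := p) t
    simp only [rl]
    split_ifs
    · omega
    · omega
  | nx d1 c t ih =>
    rintro ⟨h1, h2, h3⟩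
    refine ⟨⟨fun e => le_trans ?_ (h1 e), h2, (ih h3).1⟩, (ih h3).2⟩
    have := rl_plug_le (e := e) (p := p) t
    simp only [rl]
    split_ifs
    · omega
    · omega

theorem len_cmp_le {d : Bool} {B : Cx} (U : Cx) : U.un.len ≤ (U.cmp d B).un.len := by
  induction U with
  | here s => exact Nat.le_succ _
  | dn d1 t s ih => exact le_rfl
  | nx d1 c t ih => exact Nat.succ_le_succ ih

theorem deg_cmp_left {b : ℕ} {d : Bool} {B : Cx} (U : Cx) (h : (U.cmp d B).un.Deg b) : U.un.Deg b := by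
  induction U with
  | here s => exact h.2.2
  | dn d1 t s ih => exact ⟨(len_cmp_le t).trans h.1, ih h.2.1, h.2.2⟩
  | nx d1 c t ih => exact ⟨h.1, h.2.1, ih h.2.2⟩

/-- long paths contain changes of direction -/
theorem bd_turns {l : ℕ} {M : Cx} (hB : Bd l M.un) (hl : 3 * (l + 1) ≤ M.sg.length) : Good2 1 M := by
  refine good2_of hl (fun σ => occ_of hB σ (by omega)) (fun σ => occ_of hB σ (by omega))
    (fun σ => occ_of hB σ (by omega)) (fun σ => ?_) (fun σ => ?_)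
  · have : (tp σ (l + 1) M : ℝ) ≤ M.un.size := by exact_mod_cast tp_le_size M (l + 1)
    linarith
  · have : (bt σ (l + 1) M : ℝ) ≤ M.un.size := by exact_mod_cast bt_le_size (l + 1) M
    linarith

/-- following arcs of direction `σ` downwards one reaches a centre -/
theorem centre_dn {b : ℕ} (σ : Bool) (c : Fd) : c.Deg b → ¬ TopD (!σ) c → ∃ (N₀ : Cx) (cy : Fd), N₀.sg = [] ∧
    TopD (!σ) cy ∧ cy.len ≤ b ∧ (c = N₀.plug (σ, cy) ∨
      ∃ (K : Cx) (d : Bool), K.sg.length + 1 ≤ rl σ c ∧ c = K.plug (d, N₀.plug (σ, cy))) := by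
  induction c with
  | nil => intro _ h; exact absurd trivial h
  | node d c s ihc ihs =>
    intro hD hno
    obtain ⟨d1, d2, d3⟩ := hD
    by_cases hd : d = σ
    · subst hd
      by_cases hc : TopD (!d) c
      · exact ⟨.here s, c, rfl, hc, d1, Or.inl rfl⟩
      · obtain ⟨N₀, cy, e1, e2, e3, e4⟩ := ihc d2 hc
        have h1 := rl_lt_node (e := d) (c := c) (s := s)
        refine ⟨N₀, cy, e1, e2, e3, Or.inr ?_⟩
        rcases e4 with e4 | ⟨K, d', e4, e5⟩
        · refine ⟨.here s, d, ?_, ?_⟩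
          · simp only [Cx.sg, List.length_nil]
            omega
          · rw [e4]
            rfl
        · refine ⟨.dn d K s, d', ?_, ?_⟩
          · simp only [Cx.sg, List.length_cons]
            omega
          · simp only [Cx.plug, ← e5]
    · have hd' : d = !σ := by cases d <;> cases σ <;> simp_all
      have hs : ¬ TopD (!σ) s := fun h => hno ⟨hd', h⟩
      obtain ⟨N₀, cy, e1, e2, e3, e4⟩ := ihs d3 hs
      have h1 := rl_le_node (e := σ) (d := d) (c := c) (s := s)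
      rcases e4 with e4 | ⟨K, d', e4, e5⟩
      · refine ⟨.nx d c N₀, cy, e1, e2, e3, Or.inl ?_⟩
        rw [e4]
        rfl
      · refine ⟨N₀, cy, e1, e2, e3, Or.inr ⟨.nx d c K, d', ?_, ?_⟩⟩
        · simp only [Cx.sg]
          omega
        · simp only [Cx.plug, ← e5]

theorem bd_gad1 (b l : ℕ) : ∃ a₀ : ℕ, ∀ q : Fd, q.len ≤ b → q.Deg b → Bd l q → a₀ ≤ q.size + 1 → Gad1 b q := by
  refine ⟨b * (1 + Sd b (4 * (l + 1))) + 2, fun q hl hD hB hs σ => ?_⟩
  obtain ⟨M, p, e1, l1⟩ : ∃ (M : Cx) (p : Bool × Fd), q = M.plug p ∧ M.sg.length = 4 * (l + 1) + 1 := by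
    refine exists_deep b (4 * (l + 1) + 1) q hD ?_
    simp only
    have h1 : q.len * (1 + Sd b (4 * (l + 1))) ≤ b * (1 + Sd b (4 * (l + 1))) := Nat.mul_le_mul_right _ hl
    omega
  have hB' := hB
  rw [e1] at hB'
  obtain ⟨i₀, hi, ei⟩ := occ_of (hB'.plug M).1 σ (m := 3 * (l + 1) + 1) (by omega)
  obtain ⟨U, B₀, e2, l2, g2⟩ := split M _ σ ei
  have e3 : q = U.plug (σ, B₀.plug p) := by rw [e1, e2, Cx.plug_cmp]
  have hD1 : (B₀.plug p).len ≤ b ∧ (B₀.plug p).Deg b := by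
    have := hD
    rw [e3] at this
    exact Cx.deg_plug _ U this
  by_cases hc : TopD (!σ) (B₀.plug p)
  · obtain ⟨d₁, hd₁⟩ : ∃ d₁, U.sg[3 * (l + 1) + i₀]? = some d₁ := ⟨_, List.getElem?_eq_getElem (by omega)⟩
    obtain ⟨M₁, N₀, e4, l4, g4⟩ := split U (3 * (l + 1) + i₀) d₁ hd₁
    have hl3 := congrArg (fun N : Cx => N.sg.length) e4
    simp only [Cx.sg_cmp, List.length_append, List.length_cons] at hl3
    refine ⟨M₁, N₀, d₁, B₀.plug p, ?_, List.length_eq_zero_iff.1 (by omega), ?_, hc, hD1.1⟩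
    · rw [e3, e4, Cx.plug_cmp]
    · have hBU : Bd l U.un := by
        have := hB
        rw [e3] at this
        exact (this.plug U).1
      rw [e4] at hBU
      exact bd_turns (hBU.cmp M₁).1 (by omega)
  · obtain ⟨N₀, cy, f1, f2, f3, f4⟩ := centre_dn σ _ hD1.2 hc
    rcases f4 with f4 | ⟨K, d, f4, f5⟩
    · refine ⟨U, N₀, σ, cy, by rw [e3, f4], f1, ?_, f2, f3⟩
      have := hB
      rw [e3] at this
      exact bd_turns (this.plug U).1 (by omega)
    · have e5 : q = (U.cmp σ K).plug (d, N₀.plug (σ, cy)) := by rw [e3, f5, Cx.plug_cmp]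
      refine ⟨U.cmp σ K, N₀, d, cy, e5, f1, ?_, f2, f3⟩
      have := hB
      rw [e5] at this
      refine bd_turns (this.plug _).1 ?_
      rw [Cx.sg_cmp, List.length_append]
      omega

/-- an arc of direction `σ` followed by an arc of the other direction -/
theorem exists_turn {l : ℕ} {M : Cx} (hB : Bd l M.un) (σ : Bool) {m : ℕ} (hm : m + 2 * (l + 1) ≤ M.sg.length) :
    ∃ i, m ≤ i ∧ i + 1 < m + 2 * (l + 1) ∧ M.sg[i]? = some σ ∧ M.sg[i + 1]? = some (!σ) := by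
  obtain ⟨i₀, h1, h2⟩ := occ_of hB σ (m := m) (by omega)
  obtain ⟨j₀, h3, h4⟩ := occ_of hB (!σ) (m := m + i₀) (by omega)
  have hex : ∃ j, M.sg[m + i₀ + j]? = some (!σ) := ⟨j₀, h4⟩
  obtain ⟨j, hj1, hj2⟩ : ∃ j, M.sg[m + i₀ + j]? = some (!σ) ∧ ∀ j' < j, M.sg[m + i₀ + j']? ≠ some (!σ) :=
    ⟨Nat.find hex, Nat.find_spec hex, fun j' hj' => Nat.find_min hex hj'⟩
  have hj0 : j ≤ j₀ := by
    by_contra h
    exact hj2 j₀ (by omega) h4
  have hjp : j ≠ 0 := by
    rintro rfl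
    rw [Nat.add_zero, h2] at hj1
    cases σ <;> simp at hj1
  refine ⟨m + i₀ + (j - 1), by omega, by omega, ?_, ?_⟩
  · have h5 := hj2 (j - 1) (by omega)
    have h6 : m + i₀ + (j - 1) < M.sg.length := by omega
    rw [List.getElem?_eq_getElem h6] at h5 ⊢
    congr 1
    revert h5
    cases M.sg[m + i₀ + (j - 1)] <;> cases σ <;> simp
  · rw [show m + i₀ + (j - 1) + 1 = m + i₀ + j by omega]
    exact hj1

theorem bd_gad2 (b l : ℕ) : ∃ L₀ : ℕ, ∀ M : Cx, M.un.len ≤ b → M.un.Deg b → Bd l M.un → L₀ ≤ M.sg.length →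
    Gad2L b l M := by
  refine ⟨8 * (l + 1) + 8, fun M hl hD hB hL σ => ?_⟩
  obtain ⟨i, hi1, hi2, ei, ei'⟩ := exists_turn hB σ (m := 3 * (l + 1) + 1) (by omega)
  obtain ⟨U, B₀, e1, l1, g1⟩ := split M i σ ei
  have hl1 := congrArg (fun N : Cx => N.sg.length) e1
  simp only [Cx.sg_cmp, List.length_append, List.length_cons] at hl1
  obtain ⟨N₁, B₁, e2, l2, g2⟩ := split B₀ 0 (!σ) (by rw [g1, Nat.add_zero]; exact ei')
  have hl2 := congrArg (fun N : Cx => N.sg.length) e2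
  simp only [Cx.sg_cmp, List.length_append, List.length_cons] at hl2
  have hBM := hB
  rw [e1] at hBM
  obtain ⟨hBU, hBB₀⟩ := hBM.cmp U
  have hBB₀' := hBB₀
  rw [e2] at hBB₀'
  obtain ⟨hBN, hBB₁⟩ := hBB₀'.cmp N₁
  have hDM := hD
  rw [e1] at hDM
  obtain ⟨hDU, hDl⟩ := deg_cmp U hDM
  have hDB₀ := hDl
  rw [e2] at hDB₀
  by_cases hc : TopD (!σ) N₁.un
  · refine Or.inl ?_
    obtain ⟨d₁, hd₁⟩ : ∃ d₁, U.sg[i - 1]? = some d₁ := ⟨_, List.getElem?_eq_getElem (by omega)⟩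
    obtain ⟨d₂, hd₂⟩ : ∃ d₂, B₁.sg[0]? = some d₂ := ⟨_, List.getElem?_eq_getElem (by omega)⟩
    obtain ⟨M₁, N₀, e4, l4, g4⟩ := split U (i - 1) d₁ hd₁
    have hl4 := congrArg (fun N : Cx => N.sg.length) e4
    simp only [Cx.sg_cmp, List.length_append, List.length_cons] at hl4
    obtain ⟨N₂, M₂, e5, l5, g5⟩ := split B₁ 0 d₂ hd₂
    have hl5 := congrArg (fun N : Cx => N.sg.length) e5
    simp only [Cx.sg_cmp, List.length_append, List.length_cons] at hl5
    have hBU' := hBU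
    rw [e4] at hBU'
    have hBB₁' := hBB₁
    rw [e5] at hBB₁'
    refine ⟨M₁, N₀, N₁, N₂, M₂, d₁, d₂, ?_, List.length_eq_zero_iff.1 (by omega), List.length_eq_zero_iff.1 l2,
      List.length_eq_zero_iff.1 l5, bd_turns (hBU'.cmp M₁).1 (by omega), bd_turns (hBB₁'.cmp N₂).2 (by omega), hc, ?_⟩
    · rw [← e5, ← e2, ← Cx.cmp_assoc, ← e4, ← e1]
    · rw [e2, len_cmp N₁ l2] at hDU
      exact hDU
  · refine Or.inr ⟨U, N₁, B₁, σ, !σ, by rw [← e2, ← e1], List.length_eq_zero_iff.1 l2, bd_turns hBU (by omega),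
      bd_turns hBB₁ (by omega), ?_⟩
    obtain ⟨N₀, cy, f1, f2, f3, f4⟩ := centre_dn σ N₁.un (deg_cmp_left N₁ hDB₀) hc
    refine ⟨N₀, cy, f1, f2, f3, ?_⟩
    rcases f4 with f4 | ⟨K, d, f4, f5⟩
    · exact Or.inl f4
    · have := hBN.rl_le σ
      exact Or.inr ⟨K, d, by omega, f5⟩

end AEW
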