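import Pool.Agent.AEWL.DefsL

/-!
# Pieces in labelled forests
-/

set_option autoImplicit false

namespace AEW

open Finset AE15 AED AELT
open scoped Classical

variable {α : Type} {a b K L : ℕ} {p : α → Prop}

/-- all vertices are ordinary -/
def ofT : Tr α → DT α
  | .nil => .nil
  | .node x c s => .node x (ofT c) (ofT s)

/-- all vertices outside the hole are ordinary -/
def ofCT (x : α) (D : DT α) : CT α → DT α
  | .here s => .node x D (ofT s)
  | .dn y t s => .node y (ofCT x D t) (ofT s)
  | .nx y c t => .node y (ofT c) (ofCT x D t)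

theorem ofT_un (F : Tr α) : (ofT F).un = F := by
  induction F with
  | nil => rfl
  | node x c s ihc ihs => simp only [ofT, DT.un, ihc, ihs]

theorem ofT_sz (F : Tr α) : (ofT F).Sz a K L := by
  induction F with
  | nil => trivial
  | node x c s ihc ihs => exact ⟨ihc, ihs⟩

theorem ofT_mc (F : Tr α) : (ofT F).mc p = 0 := by
  induction F with
  | nil => rfl
  | node x c s ihc ihs => simp only [ofT, DT.mc, ihc, ihs]

theorem ofCT_un (x : α) (D : DT α) (M : CT α) : (ofCT x D M).un = M.plug x D.un := by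
  induction M with
  | here s => simp only [ofCT, DT.un, CT.plug, ofT_un]
  | dn y t s ih => simp only [ofCT, DT.un, CT.plug, ofT_un, ih]
  | nx y c t ih => simp only [ofCT, DT.un, CT.plug, ofT_un, ih]

theorem ofCT_sz {x : α} {D : DT α} (hD : D.Sz a K L) (M : CT α) : (ofCT x D M).Sz a K L := by
  induction M with
  | here s => exact ⟨hD, ofT_sz s⟩
  | dn y t s ih => exact ⟨ih, ofT_sz s⟩
  | nx y c t ih => exact ⟨ofT_sz c, ih⟩

theorem ofCT_mc (x : α) (D : DT α) (M : CT α) : (ofCT x D M).mc p = D.mc p := by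
  induction M with
  | here s => simp only [ofCT, DT.mc, ofT_mc, add_zero]
  | dn y t s ih => simp only [ofCT, DT.mc, ofT_mc, ih, add_zero]
  | nx y c t ih => simp only [ofCT, DT.mc, ofT_mc, ih, zero_add]

/-- one of the trees of the forest is large enough, or the forest is small -/
theorem big_orT (F : Tr α) : F.size ≤ K →
    (∃ D : DT α, D.un = F ∧ D.Sz a K L ∧ ∀ p : α → Prop, F.All p → 1 ≤ D.mc p) ∨ F.size ≤ F.len * a := by
  induction F with
  | nil => intro _; right; simp [Tr.size, Tr.len]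
  | node x c s _ ihs =>
    intro hK
    simp only [Tr.size] at hK
    by_cases h : a ≤ c.size + 1
    · left
      refine ⟨.pc1 x c (ofT s), by simp only [DT.un, ofT_un], ⟨h, by omega, ofT_sz s⟩, ?_⟩
      rintro p ⟨h1, h2, h3⟩
      simp only [DT.mc, if_pos (And.intro h1 h2), ofT_mc]
      omega
    · rcases ihs (by omega) with ⟨D, h1, h2, h3⟩ | h1
      · left
        refine ⟨.node x (ofT c) D, by simp only [DT.un, ofT_un, h1], ⟨ofT_sz c, h2⟩, ?_⟩
        rintro p ⟨-, -, k3⟩
        simp only [DT.mc, ofT_mc, zero_add]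
        exact h3 p k3
      · right
        simp only [Tr.size, Tr.len]
        have : (s.len + 1) * a = s.len * a + a := by ring
        omega

/-- a piece in a forest with a hole beside the path to the hole, or the forest is small -/
theorem side_orT (x : α) {D₀ : DT α} (hp : D₀.Sz a K L) (ha : 1 ≤ a) (M : CT α) : M.un.size ≤ K → M.un.Deg b →
    (∃ D : DT α, D.un = M.plug x D₀.un ∧ D.Sz a K L ∧ ∀ p : α → Prop, D₀.mc p ≤ D.mc p ∧
      (M.un.All p → D₀.mc p + 1 ≤ D.mc p)) ∨ M.un.size ≤ M.un.len * a + M.pl * (b * a) := by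
  induction M with
  | here s =>
    intro hK _
    simp only [CT.un] at hK
    rcases big_orT (a := a) (L := L) s hK with ⟨D, h1, h2, h3⟩ | h1
    · left
      refine ⟨.node x D₀ D, by simp only [DT.un, CT.plug, h1], ⟨hp, h2⟩, fun p => ⟨?_, fun hA => ?_⟩⟩
      · simp only [DT.mc]; omega
      · have := h3 p hA
        simp only [DT.mc]; omega
    · right
      simp only [CT.un, CT.pl]
      omega
  | dn y t s ih =>
    intro hK hD
    simp only [CT.un, Tr.size] at hK
    simp only [CT.un] at hD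
    obtain ⟨g1, g2, g3⟩ := hD
    rcases big_orT (a := a) (L := L) s (show s.size ≤ K by omega) with ⟨D, h1, h2, h3⟩ | h1
    · left
      refine ⟨.node y (ofCT x D₀ t) D, by simp only [DT.un, CT.plug, h1, ofCT_un], ⟨ofCT_sz hp t, h2⟩,
        fun p => ⟨?_, fun hA => ?_⟩⟩
      · simp only [DT.mc, ofCT_mc]; omega
      · have := h3 p hA.2.2
        simp only [DT.mc, ofCT_mc]; omega
    · rcases ih (by omega) g2 with ⟨D, h4, h5, h6⟩ | h4
      · left
        refine ⟨.node y D (ofT s), by simp only [DT.un, CT.plug, h4, ofT_un], ⟨h5, ofT_sz s⟩,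
          fun p => ⟨?_, fun hA => ?_⟩⟩
        · have := (h6 p).1
          simp only [DT.mc, ofT_mc, add_zero]; omega
        · have := (h6 p).2 hA.2.1
          simp only [DT.mc, ofT_mc, add_zero]; omega
      · right
        simp only [CT.un, CT.pl, Tr.size, Tr.len]
        have h7 : t.un.len * a ≤ b * a := Nat.mul_le_mul_right _ g1
        have h8 : (s.len + 1) * a = s.len * a + a := by ring
        have h9 : (t.pl + 1) * (b * a) = t.pl * (b * a) + b * a := by ring
        omega
  | nx y c t ih =>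
    intro hK hD
    simp only [CT.un, Tr.size] at hK
    simp only [CT.un] at hD
    obtain ⟨g1, g2, g3⟩ := hD
    by_cases h : a ≤ c.size + 1
    · left
      refine ⟨.pc1 y c (ofCT x D₀ t), by simp only [DT.un, CT.plug, ofCT_un], ⟨h, by omega, ofCT_sz hp t⟩,
        fun p => ⟨?_, fun hA => ?_⟩⟩
      · simp only [DT.mc, ofCT_mc]; omega
      · simp only [DT.mc, ofCT_mc, if_pos (And.intro hA.1 hA.2.1)]; omega
    · rcases ih (by omega) g3 with ⟨D, h4, h5, h6⟩ | h4
      · left
        refine ⟨.node y (ofT c) D, by simp only [DT.un, CT.plug, h4, ofT_un], ⟨ofT_sz c, h5⟩,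
          fun p => ⟨?_, fun hA => ?_⟩⟩
        · have := (h6 p).1
          simp only [DT.mc, ofT_mc, zero_add]; omega
        · have := (h6 p).2 hA.2.2
          simp only [DT.mc, ofT_mc, zero_add]; omega
      · right
        simp only [CT.un, CT.pl, Tr.size, Tr.len]
        have h8 : (t.un.len + 1) * a = t.un.len * a + a := by ring
        omega

/-- a piece in a large forest with a hole if the path to the hole is long -/
theorem seg_orT (x : α) {D₀ : DT α} (hp : D₀.Sz a K L) (M : CT α) : M.un.size ≤ K → L + 1 ≤ M.pl →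
    M.un.len * a + a ≤ M.un.size → ∃ D : DT α, D.un = M.plug x D₀.un ∧ D.Sz a K L ∧ ∀ p : α → Prop,
      D₀.mc p ≤ D.mc p ∧ (M.un.All p → D₀.mc p + 1 ≤ D.mc p) := by
  induction M with
  | here s =>
    intro _ hL _
    simp [CT.pl] at hL
  | dn y t s ih =>
    intro hK hL hM
    simp only [CT.un, Tr.size] at hK
    simp only [CT.un, Tr.size, Tr.len] at hM
    simp only [CT.pl] at hL
    rcases big_orT (a := a) (L := L) s (show s.size ≤ K by omega) with ⟨D, h1, h2, h3⟩ | h1
    · refine ⟨.node y (ofCT x D₀ t) D, by simp only [DT.un, CT.plug, h1, ofCT_un], ⟨ofCT_sz hp t, h2⟩,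
        fun p => ⟨?_, fun hA => ?_⟩⟩
      · simp only [DT.mc, ofCT_mc]; omega
      · have := h3 p hA.2.2
        simp only [DT.mc, ofCT_mc]; omega
    · have h8 : (s.len + 1) * a = s.len * a + a := by ring
      refine ⟨.pc2 y t x D₀ (ofT s), by simp only [DT.un, CT.plug, ofT_un],
        ⟨by omega, by omega, by omega, hp, ofT_sz s⟩, fun p => ⟨?_, fun hA => ?_⟩⟩
      · simp only [DT.mc, ofT_mc]; omega
      · simp only [DT.mc, ofT_mc, if_pos (And.intro hA.1 hA.2.1)]; omega
  | nx y c t ih =>
    intro hK hL hM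
    simp only [CT.un, Tr.size] at hK
    simp only [CT.un, Tr.size, Tr.len] at hM
    simp only [CT.pl] at hL
    by_cases h : a ≤ c.size + 1
    · refine ⟨.pc1 y c (ofCT x D₀ t), by simp only [DT.un, CT.plug, ofCT_un], ⟨h, by omega, ofCT_sz hp t⟩,
        fun p => ⟨?_, fun hA => ?_⟩⟩
      · simp only [DT.mc, ofCT_mc]; omega
      · simp only [DT.mc, ofCT_mc, if_pos (And.intro hA.1 hA.2.1)]; omega
    · have h8 : (t.un.len + 1) * a = t.un.len * a + a := by ring
      obtain ⟨D, h4, h5, h6⟩ := ih (by omega) hL (by omega)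
      refine ⟨.node y (ofT c) D, by simp only [DT.un, CT.plug, h4, ofT_un], ⟨ofT_sz c, h5⟩,
        fun p => ⟨?_, fun hA => ?_⟩⟩
      · have := (h6 p).1
        simp only [DT.mc, ofT_mc, zero_add]; omega
      · have := (h6 p).2 hA.2.2
        simp only [DT.mc, ofT_mc, zero_add]; omega

theorem un_lenT (x : α) (c : Tr α) (M : CT α) : M.un.len ≤ (M.plug x c).len := by
  induction M with
  | here s => simp only [CT.un, CT.plug, Tr.len]; omega
  | dn y t s ih => simp only [CT.un, CT.plug, Tr.len]; omega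
  | nx y c t ih => simp only [CT.un, CT.plug, Tr.len]; omega

theorem un_degT (x : α) (c : Tr α) (M : CT α) : (M.plug x c).Deg b → M.un.Deg b := by
  induction M with
  | here s => intro h; exact h.2.2
  | dn y t s ih => intro h; exact ⟨(un_lenT x c t).trans h.1, ih h.2.1, h.2.2⟩
  | nx y c t ih => intro h; exact ⟨h.1, h.2.1, ih h.2.2⟩

theorem size_plugT (x : α) (c : Tr α) (M : CT α) : (M.plug x c).size = M.un.size + (c.size + 1) := by
  induction M with
  | here s => simp only [CT.plug, CT.un, Tr.size]; omega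
  | dn y t s ih => simp only [CT.plug, CT.un, Tr.size, ih]; omega
  | nx y c t ih => simp only [CT.plug, CT.un, Tr.size, ih]; omega

theorem ct_plugT (x : α) (c : Tr α) (M : CT α) : (M.plug x c).ct p = M.un.ct p + ((if p x then 1 else 0) + c.ct p) := by
  induction M with
  | here s => simp only [CT.plug, CT.un, Tr.ct]; omega
  | dn y t s ih => simp only [CT.plug, CT.un, Tr.ct, ih]; omega
  | nx y c t ih => simp only [CT.plug, CT.un, Tr.ct, ih]; omega

theorem ct_le (p : α → Prop) (T : Tr α) : T.ct p ≤ T.size := by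
  induction T with
  | nil => exact le_rfl
  | node x c s ihc ihs =>
    simp only [Tr.ct, Tr.size]
    split_ifs <;> omega

section lip

variable {Mk : ℕ → α → Prop}

/-- a marked vertex marks the common vertex -/
theorem lip_up (hm : ∀ h h', h ≤ h' → ∀ x, Mk h x → Mk h' x) {h : ℕ} (T : Tr α) : ∀ {v : α}, T.Par (Lip Mk) v →
    0 < T.ct (Mk h) → Mk (h + T.size) v := by
  induction T with
  | nil => intro v _ h0; simp [Tr.ct] at h0
  | node x c s ihc ihs =>
    rintro v ⟨h1, h2, h3⟩ h0
    simp only [Tr.size]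
    simp only [Tr.ct] at h0
    by_cases hx : Mk h x
    · exact hm _ _ (by omega) _ (h1.up _ hx)
    · rw [if_neg hx, zero_add] at h0
      rcases Nat.eq_zero_or_pos (c.ct (Mk h)) with hc | hc
      · exact hm _ _ (by omega) _ (ihs h3 (by omega))
      · exact hm _ _ (by omega) _ (h1.up _ (ihc h2 hc))

/-- the common vertex marks all vertices -/
theorem lip_dn (hm : ∀ h h', h ≤ h' → ∀ x, Mk h x → Mk h' x) (T : Tr α) : ∀ {v : α} {h : ℕ}, T.Par (Lip Mk) v →
    Mk h v → T.All (Mk (h + T.size)) := by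
  induction T with
  | nil => intro v h _ _; trivial
  | node x c s ihc ihs =>
    rintro v h ⟨h1, h2, h3⟩ h0
    simp only [Tr.size]
    have hx := h1.dn _ h0
    refine ⟨hm _ _ (by omega) _ hx, ?_, ?_⟩
    · exact (ihc h2 hx).mono (fun y hy => hm _ _ (by omega) _ hy)
    · exact (ihs h3 h0).mono (fun y hy => hm _ _ (by omega) _ hy)

/-- the vertex in the hole -/
theorem lip_hole (hm : ∀ h h', h ≤ h' → ∀ x, Mk h x → Mk h' x) {x : α} {c : Tr α} (M : CT α) : ∀ {v : α} {h : ℕ},
    (M.plug x c).Par (Lip Mk) v → Mk h v → Mk (h + M.un.size + 1) x := by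
  induction M with
  | here s =>
    rintro v h ⟨h1, h2, h3⟩ h0
    exact hm _ _ (by omega) _ (h1.dn _ h0)
  | dn y t s ih =>
    rintro v h ⟨h1, h2, h3⟩ h0
    simp only [CT.un, Tr.size]
    exact hm _ _ (by omega) _ (ih h2 (h1.dn _ h0))
  | nx y c t ih =>
    rintro v h ⟨h1, h2, h3⟩ h0
    simp only [CT.un, Tr.size]
    exact hm _ _ (by omega) _ (ih h3 h0)

theorem par_un {P : α → α → Prop} {x : α} {c : Tr α} (M : CT α) : ∀ {v : α}, (M.plug x c).Par P v →
    M.un.Par P v ∧ c.Par P x := by
  induction M with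
  | here s =>
    rintro v ⟨h1, h2, h3⟩
    exact ⟨h3, h2⟩
  | dn y t s ih =>
    rintro v ⟨h1, h2, h3⟩
    obtain ⟨k1, k2⟩ := ih h2
    exact ⟨⟨h1, k1, h3⟩, k2⟩
  | nx y c t ih =>
    rintro v ⟨h1, h2, h3⟩
    obtain ⟨k1, k2⟩ := ih h3
    exact ⟨⟨h1, h2, k1⟩, k2⟩

end lip

end AEW
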