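import Pool.Agent.AEWL.DefsL
import Pool.Agent.AEW.XDefs

/-!
# Pieces with a movable centre, also off the path of a segment: definitions
-/

set_option autoImplicit false

namespace AEW

open Finset AE15 AED AELT
open scoped Classical

/-- the forest `c` at a vertex `p` contains a centre `y` (type `σ`); `N₀` are the other trees at the parent `x₀` of `y`,
`cy` are the trees at `y`; `x₀` is `p` or at distance at most `j + 1` from `p` -/
def Off (b j : ℕ) (σ : Bool) (c : Fd) : Prop := ∃ (N₀ : Cx) (cy : Fd), N₀.sg = [] ∧ TopD (!σ) cy ∧ cy.len ≤ b ∧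
  (c = N₀.plug (σ, cy) ∨ ∃ (K : Cx) (d : Bool), K.sg.length ≤ j ∧ c = K.plug (d, N₀.plug (σ, cy)))

/-- a segment which is gadgetable: the centre is on the path (as in `Gad2`) or in the side branches `N.un` of a vertex `p`
of the path -/
def Gad2L (b j : ℕ) (M : Cx) : Prop := ∀ σ : Bool,
  (∃ (M₁ N₀ N₁ N₂ M₂ : Cx) (d₁ d₂ : Bool),
    M = M₁.cmp d₁ (N₀.cmp σ (N₁.cmp (!σ) (N₂.cmp d₂ M₂))) ∧ N₀.sg = [] ∧ N₁.sg = [] ∧ N₂.sg = [] ∧ Good2 1 M₁ ∧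
      Good2 1 M₂ ∧ TopD (!σ) N₁.un ∧ N₁.un.len + 1 ≤ b) ∨
  ∃ (M₁ N M₂ : Cx) (d₁ d₂ : Bool), M = M₁.cmp d₁ (N.cmp d₂ M₂) ∧ N.sg = [] ∧ Good2 1 M₁ ∧ Good2 1 M₂ ∧ Off b j σ N.un

/-- number of pieces which are good and gadgetable -/
noncomputable def Dk.actL (ε : ℝ) (b j : ℕ) : Dk → ℕ
  | .nil => 0
  | .node _ c s => c.actL ε b j + s.actL ε b j
  | .pc1 _ q s => (if Good1 ε q ∧ Gad1 b q then 1 else 0) + s.actL ε b j
  | .pc2 _ M _ c s => (if Good2 ε M ∧ Gad2L b j M then 1 else 0) + (c.actL ε b j + s.actL ε b j)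

variable {V : Type}

/-- the piece is gadgetable -/
def Pd.GadL (b j : ℕ) : Pd V → Prop
  | .one _ _ q => Gad1 b q
  | .two _ _ M _ _ => Gad2L b j M

/-- the absorption theorem without additional vertices -/
def AbsorbLSt (b j : ℕ) : Prop := ∀ θ : ℝ, 0 < θ → ∃ ε : ℝ, 0 < ε ∧ ∀ (m : ℕ) (δ : ℝ), 0 < δ → ∃ n₀ : ℕ, ∀ D : Dk,
  D.un.len ≤ b → D.un.Deg b → D.Ok ε m → θ * (D.un.size + 1) ≤ D.psz → δ * (D.un.size + 1) ≤ D.actL ε b j →
    n₀ ≤ D.un.size → Fits 0 D.un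

end AEW
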