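import Pool.Agent.AEW.Glue
import Pool.Agent.AEW.XDet
import Pool.Agent.AEW.RanG

/-!
# Trees with sufficiently many places without long directed paths: definitions
-/

set_option autoImplicit false

namespace AEW

open Finset AE15 AED AELT
open scoped Classical

/-- length of the longest descending path of arcs of direction `d` which begins at the common vertex -/
def rl (d : Bool) : Fd → ℕ
  | .nil => 0
  | .node d' c s => max (if d' = d then rl d c + 1 else 0) (rl d s)

/-- all descending paths of arcs of the same direction have at most `l` arcs -/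
def Bd (l : ℕ) : Fd → Prop
  | .nil => True
  | .node d c s => (∀ e, rl e (.node d c s) ≤ l) ∧ Bd l c ∧ Bd l s

variable {α : Type}

/-- `v` is the label of the common vertex; neighbours satisfy `P` -/
def Tr.Par (P : α → α → Prop) : α → Tr α → Prop
  | _, .nil => True
  | v, .node a c s => P v a ∧ c.Par P a ∧ s.Par P v

/-- number of labels with the property `p` -/
noncomputable def Tr.ct (p : α → Prop) : Tr α → ℕ
  | .nil => 0
  | .node a c s => (if p a then 1 else 0) + (c.ct p + s.ct p)

/-- number of pieces all of whose labels have the property `p` -/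
noncomputable def DT.mc (p : α → Prop) : DT α → ℕ
  | .nil => 0
  | .node _ c s => c.mc p + s.mc p
  | .pc1 a q s => (if p a ∧ q.All p then 1 else 0) + s.mc p
  | .pc2 a M _ c s => (if p a ∧ M.un.All p then 1 else 0) + (c.mc p + s.mc p)

/-- `Mk h` marks the vertices at distance at most `h` from a given set -/
structure Lip (Mk : ℕ → α → Prop) (x y : α) : Prop where
  dn : ∀ h, Mk h x → Mk (h + 1) y
  up : ∀ h, Mk h y → Mk (h + 1) x

/-- all orientations of the arcs -/
def CT.or (f : α → Bool) : CT α → Cx
  | .here s => .here (s.or f)
  | .dn a t s => .dn (f a) (t.or f) (s.or f)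
  | .nx a c t => .nx (f a) (c.or f) (t.or f)

def DT.or (f : α → Bool) : DT α → Dk
  | .nil => .nil
  | .node a c s => .node (f a) (c.or f) (s.or f)
  | .pc1 a q s => .pc1 (f a) (q.or f) (s.or f)
  | .pc2 a M a' c s => .pc2 (f a) (M.or f) (f a') (c.or f) (s.or f)

end AEW
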