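import Pool.Agent.AEWL.FitAll

/-!
# Many good pieces from a positive proportion of the vertices without long directed paths nearby
-/

set_option autoImplicit false

namespace AEW

open Finset AE15 AED AELT
open scoped Classical

/-- **many good pieces**; `θ'` does not depend on `ε` -/
theorem loc_end (b l : ℕ) (hb : 1 ≤ b) {θ : ℝ} (hθ : 0 < θ) : ∃ θ' : ℝ, 0 < θ' ∧ ∀ ε : ℝ, 0 < ε → ∃ r m n₁ : ℕ,
    ∀ {α : Type} (P : α → α → Prop) (f : α → Bool) (Mk : ℕ → α → Prop), (∀ h h', h ≤ h' → ∀ x, Mk h x → Mk h' x) →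
      (∀ x y, P x y → Lip Mk x y) →
      (∀ p : ℕ → α, (∀ i ≤ l, P (p i) (p (i + 1))) → Mk r (p 0) → ∀ d, ∃ i ≤ l, f (p (i + 1)) ≠ d) →
        ∀ (T : Tr α) (v : α), T.len ≤ b → T.Deg b → T.Par P v → n₁ ≤ T.size + 1 → θ * (T.size + 1) ≤ T.ct (Mk 0) →
          ∃ D : Dk, D.un = T.or f ∧ D.Ok ε m ∧ θ' * (D.un.size + 1) ≤ D.psz := by
  obtain ⟨L, hL⟩ : ∃ L : ℕ, L = 3 * (l + 1) := ⟨_, rfl⟩
  obtain ⟨B, hB⟩ : ∃ B : ℕ, B = 16 * b ^ 2 * (L + 1) := ⟨_, rfl⟩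
  have hBp : 1 ≤ B := by
    rw [hB]
    have h1 : 1 ≤ b ^ 2 := Nat.one_le_pow _ _ hb
    have h2 : 1 ≤ b ^ 2 * (L + 1) := Nat.mul_pos h1 (by omega)
    calc 1 ≤ b ^ 2 * (L + 1) := h2
      _ ≤ 16 * (b ^ 2 * (L + 1)) := by omega
      _ = 16 * b ^ 2 * (L + 1) := by ring
  have hBR : (1 : ℝ) ≤ B := by exact_mod_cast hBp
  obtain ⟨R, hR⟩ := pow_unbounded_of_one_lt (4 * b / θ) (one_lt_two : (1 : ℝ) < 2)
  refine ⟨θ / (2 * (R + 1) * B), by positivity, ?_⟩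
  intro ε hε
  obtain ⟨a₁, ha₁⟩ := bd_good1 b l hε
  obtain ⟨a₂, ha₂⟩ := bd_good2 b l hε
  obtain ⟨a, ha⟩ : ∃ a : ℕ, a = max 1 (max a₁ a₂) := ⟨_, rfl⟩
  have ha0 : 1 ≤ a := by rw [ha]; exact le_max_left _ _
  have ha1 : a₁ ≤ a := by rw [ha]; exact (le_max_left _ _).trans (le_max_right _ _)
  have ha2 : a₂ ≤ a := by rw [ha]; exact (le_max_right _ _).trans (le_max_right _ _)
  obtain ⟨r, A, hrA⟩ := loc_decomp b L R hb a ha0
  obtain ⟨n₁, hn₁⟩ := exists_nat_ge (4 * A / θ)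
  refine ⟨r, B * a, n₁, ?_⟩
  intro α P f Mk hmono hLip H T v hl hd hP hs hct
  obtain ⟨D, d1, d2, d3⟩ := hrA Mk hmono T v hl hd (Tr.Par.mono hLip T v hP)
  rw [← hB] at d2 d3
  have hsz : (T.or f).size = T.size := (Sh.or f T).size
  have hn : 4 * A / θ ≤ (T.size : ℝ) + 1 := by
    have : (n₁ : ℝ) ≤ T.size + 1 := by exact_mod_cast hs
    linarith
  have hn' : (A : ℝ) ≤ θ / 4 * (T.size + 1) := by
    rw [div_le_iff₀ hθ] at hn
    linarith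
  have hmc : D.mc (Mk r) ≤ (D.or f).gct ε := by
    rw [← d1] at hl hd hP
    exact mc_le_gct (fun q q1 q2 q3 q4 => ha₁ q q1 q2 q3 (ha1.trans q4))
      (fun M m1 m2 m3 m4 m5 => ha₂ M m1 m2 m3 (by rw [← hL]; exact m4) (ha2.trans m5)) H D v hl hd hP d2
  obtain ⟨D', e1, e2, e3, -⟩ := opnX ε a (B * a) L b (D.or f) ((shD_or f D).sz.2 d2)
  rw [DT.or_un, d1] at e1
  refine ⟨D', e1, e2, ?_⟩
  rw [e1, hsz]
  have hpow : (0 : ℝ) < 2 ^ R := by positivity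
  have f1 : (2 : ℝ) ^ R * T.ct (Mk 0) ≤ b * (T.size + 1) + 2 ^ R * (A + (R + 1) * (B * a) * D.mc (Mk r)) := by
    exact_mod_cast d3
  have f2 : (b : ℝ) * (T.size + 1) ≤ 2 ^ R * (θ / 4 * (T.size + 1)) := by
    rw [div_lt_iff₀ hθ] at hR
    have : (0 : ℝ) ≤ (T.size : ℝ) + 1 := by positivity
    nlinarith
  have f3 : (T.ct (Mk 0) : ℝ) ≤ θ / 4 * (T.size + 1) + (A + (R + 1) * (B * a) * D.mc (Mk r)) := by
    have f4 : (2 : ℝ) ^ R * T.ct (Mk 0) ≤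
        2 ^ R * (θ / 4 * (T.size + 1) + (A + (R + 1) * (B * a) * D.mc (Mk r))) := by
      rw [mul_add]
      linarith
    exact le_of_mul_le_mul_left f4 hpow
  have f5 : ((a * D.mc (Mk r) : ℕ) : ℝ) ≤ D'.psz := by
    exact_mod_cast (Nat.mul_le_mul_left a hmc).trans e3
  have f6 : ((R : ℝ) + 1) * (B * a) * D.mc (Mk r) = (R + 1) * B * ((a * D.mc (Mk r) : ℕ) : ℝ) := by
    push_cast; ring
  have f7 : ((R : ℝ) + 1) * B * ((a * D.mc (Mk r) : ℕ) : ℝ) ≤ (R + 1) * B * D'.psz :=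
    mul_le_mul_of_nonneg_left f5 (by positivity)
  rw [div_mul_eq_mul_div, div_le_iff₀ (by positivity)]
  rw [f6] at f3
  linarith

end AEW
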