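import Pool.Agent.AEWL.DefsL
import Pool.Agent.AEW.Hand

/-!
# The graph: vertices without long directed paths nearby
-/

set_option autoImplicit false

namespace AEW

open Finset Relation AE15 AED AELT AESK AEJT
open scoped Classical

section shape

variable {α : Type}

theorem tmk_par {P : α → α → Prop} {v : α} {L : List (α × Tr α)} (h : ∀ p ∈ L, P v p.1 ∧ p.2.Par P p.1) :
    (tmk L).Par P v := by
  induction L with
  | nil => trivial
  | cons p L ih =>
    have h1 := h p (List.mem_cons_self ..)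
    exact ⟨h1.1, h1.2, ih fun q hq => h q (List.mem_cons_of_mem _ hq)⟩

theorem labs_length (T : Tr α) : T.labs.length = T.size := by
  induction T with
  | nil => rfl
  | node a c s ihc ihs => simp only [Tr.labs, List.length_cons, List.length_append, Tr.size, ihc, ihs]

theorem ct_eq (p : α → Prop) (T : Tr α) : T.ct p = (T.labs.filter (fun x => decide (p x))).length := by
  induction T with
  | nil => rfl
  | node a c s ihc ihs =>
    simp only [Tr.labs, Tr.ct, ihc, ihs]
    by_cases h : p a
    · rw [if_pos h, List.filter_cons_of_pos (by simpa using h), List.filter_append, List.length_cons, List.length_append]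
      omega
    · rw [if_neg h, List.filter_cons_of_neg (by simpa using h), List.filter_append, List.length_append]
      omega

end shape

theorem trN_par {τ : Type} [Fintype τ] {P : τ → τ → Prop} (n : ℕ) : ∀ v, (trN P n v).Par P v := by
  induction n with
  | zero => intro v; trivial
  | succ n ih =>
    intro v
    rw [trN]
    refine tmk_par fun p hp => ?_
    obtain ⟨w, hw, rfl⟩ := List.mem_map.1 hp
    exact ⟨mem_chl.1 (mem_toList.1 hw), ih w⟩

variable {k : ℕ} {G : SimpleGraph (Fin (k + 1))}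

/-- the labelled shape of a rooted tree, with the parent relation -/
theorem exists_trP (hG : G.IsTree) {b : ℕ} (hb : ∀ v, (G.neighborSet v).ncard ≤ b) (r : Fin (k + 1)) :
    ∃ T : Tr (Fin (k + 1)), T.labs.Nodup ∧ r ∉ T.labs ∧ T.size = k ∧ T.len ≤ b ∧ T.Deg b ∧ T.Par (Par G r) r ∧
      ∀ (E : Fin (k + 1) → Fin (k + 1) → Prop) (f : Fin (k + 1) → Bool),
        (∀ v w, Par G r v w → (E v w ↔ f w = true)) → code E (Par G r) r = T.or f := by
  have hlt : ∀ a c, Par G r a c → G.dist r a < G.dist r c := fun _ _ h => h.lt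
  have huq : ∀ a c d, Par G r a d → Par G r c d → a = c := fun _ _ _ h h' => h.unique hG h'
  have hcode' : ∀ (E : Fin (k + 1) → Fin (k + 1) → Prop) (f : Fin (k + 1) → Bool),
      (∀ v w, Par G r v w → (E v w ↔ f w = true)) →
        code E (Par G r) r = (trN (Par G r) (Fintype.card (Fin (k + 1))) r).or f := fun E f h =>
    (trN_or (E := E) (P := Par G r) (f := f) h _ r).symm
  have hcode : ∀ f : Fin (k + 1) → Bool,
      code (orf G r f) (Par G r) r = (trN (Par G r) (Fintype.card (Fin (k + 1))) r).or f := fun f =>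
    hcode' _ f (fun v w h => orf_eq f h.1 h.2)
  obtain ⟨f⟩ : Nonempty (Fin (k + 1) → Bool) := ⟨fun _ => true⟩
  refine ⟨trN (Par G r) (Fintype.card (Fin (k + 1))) r, trN_nodup hlt huq _ r, ?_, ?_, ?_, ?_, trN_par _ _, hcode'⟩
  · intro h
    obtain ⟨w, h1, h2⟩ := trN_labs _ r r h
    exact AE32.notMem_desc hlt h1 h2
  · have h1 := size_code (E := orf G r f) hG (r := r) r
    rw [desc_root hG, card_univ, Fintype.card_fin, hcode f, Tr.or_size] at h1
    omega
  · rw [← Tr.or_len f, ← hcode f, code_len hlt]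
    exact code_len_le hG hb r
  · rw [← Tr.or_deg f, ← hcode f]
    exact code_deg hlt (code_len_le hG hb) _ r rfl

/-- counting labels -/
theorem ncard_le_ct {T : Tr (Fin (k + 1))} (hnd : T.labs.Nodup) {r : Fin (k + 1)} (hr : r ∉ T.labs) (hs : T.size = k)
    (p : Fin (k + 1) → Prop) : {v | p v}.ncard ≤ T.ct p + 1 := by
  have h1 : insert r T.labs.toFinset = univ := by
    rw [← card_eq_iff_eq_univ, card_insert_of_notMem (by simpa using hr), List.toFinset_card_of_nodup hnd, labs_length, hs,
      Fintype.card_fin]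
  have h2 : {v | p v} ⊆ ((insert r (T.labs.filter (fun x => decide (p x))).toFinset : Finset (Fin (k + 1))) :
      Set (Fin (k + 1))) := by
    intro v hv
    have h3 : v ∈ insert r T.labs.toFinset := by rw [h1]; exact mem_univ _
    rw [mem_coe, mem_insert, List.mem_toFinset, List.mem_filter]
    rw [mem_insert, List.mem_toFinset] at h3
    rcases h3 with h3 | h3
    · exact Or.inl h3
    · exact Or.inr ⟨h3, by simpa using hv⟩
  calc {v | p v}.ncard ≤ ((insert r (T.labs.filter (fun x => decide (p x))).toFinset : Finset (Fin (k + 1))) :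
      Set (Fin (k + 1))).ncard := Set.ncard_le_ncard h2 (Set.toFinite _)
    _ = (insert r (T.labs.filter (fun x => decide (p x))).toFinset).card := Set.ncard_coe_finset _
    _ ≤ (T.labs.filter (fun x => decide (p x))).toFinset.card + 1 := card_insert_le _ _
    _ ≤ T.ct p + 1 := by
        rw [ct_eq]
        exact Nat.add_le_add_right (List.toFinset_card_le _) 1

/-- the vertices `v` such that no directed path with `l + 1` arcs lies within distance `ρ` of `v` -/
def Calm (E : Fin (k + 1) → Fin (k + 1) → Prop) (l ρ : ℕ) (v : Fin (k + 1)) : Prop :=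
  ∀ p : ℕ → Fin (k + 1), (∀ i ≤ l, E (p i) (p (i + 1))) → ∃ i ≤ l + 1, ρ < (SimpleGraph.fromRel E).dist v (p i)

/-- **from the graph to labelled codes** -/
theorem calm_code {E : Fin (k + 1) → Fin (k + 1) → Prop} (hE : ∀ a b, E a b → ¬ E b a)
    (hG : (SimpleGraph.fromRel E).IsTree) {b l r : ℕ} (hb : ∀ v, ((SimpleGraph.fromRel E).neighborSet v).ncard ≤ b) :
    ∃ (P : Fin (k + 1) → Fin (k + 1) → Prop) (f : Fin (k + 1) → Bool) (Mk : ℕ → Fin (k + 1) → Prop)
      (T : Tr (Fin (k + 1))), (∀ h h', h ≤ h' → ∀ x, Mk h x → Mk h' x) ∧ (∀ x y, P x y → Lip Mk x y) ∧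
      (∀ p : ℕ → Fin (k + 1), (∀ i ≤ l, P (p i) (p (i + 1))) → Mk r (p 0) → ∀ d, ∃ i ≤ l, f (p (i + 1)) ≠ d) ∧
      T.size = k ∧ T.len ≤ b ∧ T.Deg b ∧ T.Par P 0 ∧ {v | Calm E l (r + l + 1) v}.ncard ≤ T.ct (Mk 0) + 1 ∧
      ∀ {V : Type} {R : V → V → Prop} {N : V → Prop} {X : Finset V}, In R (T.or f) N X →
        ∃ g : Fin (k + 1) → V, Function.Injective g ∧ ∀ a c, E a c → R (g a) (g c) := by
  obtain ⟨T, hnd, hr, hs, hl, hD, hP, hcode⟩ := exists_trP hG hb 0
  obtain ⟨G, hGd⟩ : ∃ G, G = SimpleGraph.fromRel E := ⟨_, rfl⟩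
  rw [← hGd] at hG hb hP hcode
  have hOri : E ∈ Ori G := ⟨hE, hGd.symm⟩
  obtain ⟨f, hf⟩ : ∃ f : Fin (k + 1) → Bool, f = fun w => decide (∃ y, Par G 0 y w ∧ E y w) := ⟨_, rfl⟩
  have hf1 : ∀ v w, Par G 0 v w → (E v w ↔ f w = true) := by
    intro v w h
    rw [hf]
    simp only [decide_eq_true_eq]
    constructor
    · intro h1
      exact ⟨v, h, h1⟩
    · rintro ⟨y, h1, h2⟩
      rw [h.unique hG h1]
      exact h2
  have hf2 : ∀ v w, Par G 0 v w → f w = false → E w v := by
    intro v w h h1
    have h2 : ¬ E v w := by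
      rw [hf1 v w h, h1]
      simp
    have h3 : G.Adj v w := h.1
    rw [hGd, SimpleGraph.fromRel_adj] at h3
    exact h3.2.resolve_left h2
  have hadj : ∀ x y z, G.Adj x y → ∀ h, G.dist z x ≤ h → G.dist z y ≤ h + 1 := by
    intro x y z h1 h h2
    have h3 := hG.connected.dist_triangle (u := z) (v := x) (w := y)
    have h4 : G.dist x y = 1 := SimpleGraph.dist_eq_one_iff_adj.2 h1
    omega
  refine ⟨Par G 0, f, fun h x => ∃ v, Calm E l (r + l + 1) v ∧ G.dist v x ≤ h, T, ?_, ?_, ?_, hs, hl, hD, hP, ?_, ?_⟩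
  · rintro h h' hh x ⟨v, h1, h2⟩
    exact ⟨v, h1, h2.trans hh⟩
  · intro x y hxy
    refine ⟨?_, ?_⟩
    · rintro h ⟨v, h1, h2⟩
      exact ⟨v, h1, hadj x y v hxy.1 h h2⟩
    · rintro h ⟨v, h1, h2⟩
      exact ⟨v, h1, hadj y x v hxy.1.symm h h2⟩
  · rintro p hp ⟨v, h1, h2⟩ d
    by_contra hcon
    push Not at hcon
    have hdist : ∀ i ≤ l + 1, G.dist v (p i) ≤ r + i := by
      intro i
      induction i with
      | zero => intro _; exact h2
      | succ i ih =>
        intro hi
        exact hadj _ _ v (hp i (by omega)).1 _ (ih (by omega))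
    cases d with
    | true =>
      obtain ⟨i, hi, h3⟩ := h1 p (fun i hi => (hf1 _ _ (hp i hi)).2 (hcon i hi))
      rw [← hGd] at h3
      have := hdist i hi
      omega
    | false =>
      obtain ⟨i, hi, h3⟩ := h1 (fun i => p (l + 1 - i)) (fun i hi => by
        have h4 := hf2 _ _ (hp (l - i) (by omega)) (hcon (l - i) (by omega))
        have e1 : l + 1 - i = l - i + 1 := by omega
        have e2 : l + 1 - (i + 1) = l - i := by omega
        simp only [e1, e2]
        exact h4)
      rw [← hGd] at h3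
      have := hdist (l + 1 - i) (by omega)
      omega
  · refine le_trans (Set.ncard_le_ncard ?_ (Set.toFinite _)) (ncard_le_ct hnd hr hs _)
    intro v hv
    exact ⟨v, hv, by rw [SimpleGraph.dist_self]⟩
  · intro V R N X hIn
    rw [← hcode E f hf1] at hIn
    exact emb_code hG hOri hIn

end AEW
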