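import Pool.Agent.AEWL.FitAll
import Pool.Agent.AEWL.Graph

/-!
# Trees in which sufficiently many vertices have no long directed paths nearby
-/

set_option autoImplicit false

namespace AEW

open Finset AE15 AED AELT AEJT AESK
open scoped Classical

/-- **the graph form** -/
theorem loc_graph (Δ l : ℕ) {θ : ℝ} (hθ : 0 < θ) : ∃ ρ C : ℕ, ∀ k n : ℕ, k + C ≤ n → ∀ R : Fin n → Fin n → Prop,
    (∀ a, ¬ R a a) → (∀ a b, a ≠ b → R a b ∨ R b a) → (∀ a b, R a b → ¬ R b a) →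
    ∀ E : Fin (k + 1) → Fin (k + 1) → Prop,
      (∀ a b, E a b → ¬ E b a) →
      (SimpleGraph.fromRel E).IsTree →
      (∀ v, ((SimpleGraph.fromRel E).neighborSet v).ncard ≤ Δ) →
      θ * k ≤ {v : Fin (k + 1) | ∀ p : ℕ → Fin (k + 1), (∀ i ≤ l, E (p i) (p (i + 1))) →
        ∃ i ≤ l + 1, ρ < (SimpleGraph.fromRel E).dist v (p i)}.ncard →
      ∃ f : Fin (k + 1) → Fin n, Function.Injective f ∧ ∀ a b, E a b → R (f a) (f b) := by
  obtain ⟨r, C, hC⟩ := loc_fits (max Δ 1) l (le_max_right _ _) (θ := θ / 2) (by positivity)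
  obtain ⟨k₀, hk₀⟩ := exists_nat_ge ((2 + θ) / θ)
  rw [div_le_iff₀ hθ] at hk₀
  refine ⟨r + l + 1, max (C + 1) (4 * (k₀ + 1)), ?_⟩
  intro k n hn R r1 r2 r3 E hE hG hdeg hct
  have hn1 : k + (C + 1) ≤ n := le_trans (Nat.add_le_add_left (le_max_left _ _) k) hn
  have hn2 : k + 4 * (k₀ + 1) ≤ n := le_trans (Nat.add_le_add_left (le_max_right _ _) k) hn
  obtain ⟨P, f, Mk, T, t1, t2, t3, t4, t5, t6, t7, t8, t9⟩ := calm_code (l := l) (r := r) hE hG
    (b := max Δ 1) (fun v => (hdeg v).trans (le_max_left _ _))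
  refine t9 (R := R) (N := fun _ => True) (X := univ) ?_
  have hT : AE32.Tour R := ⟨r1, r2, r3⟩
  have hsz : (T.or f).size = k := by rw [Tr.or_size, t4]
  rcases Nat.lt_or_ge k k₀ with hk | hk
  · obtain ⟨x, hx, A, hA, hxA, hS⟩ := four hT (T.or f) (X := univ) (by
      rw [card_univ, Fintype.card_fin, hsz]
      omega)
    exact ⟨x, hx, A, hA, hxA, trivial, hS⟩
  · refine hC P f Mk t1 t2 t3 T 0 t5 t6 t7 ?_ hT univ ?_
    · have e1 : θ * k ≤ T.ct (Mk 0) + 1 := hct.trans (by exact_mod_cast t8)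
      have e2 : (k₀ : ℝ) * θ ≤ k * θ := mul_le_mul_of_nonneg_right (by exact_mod_cast hk) hθ.le
      rw [t4]
      linarith
    · rw [card_univ, Fintype.card_fin, hsz]
      omega

end AEW
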