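import Pool.Agent.AEW.XGad
import Pool.Agent.AEW.XBack
import Pool.Agent.AEWL.DefsE

/-!
# Placing a piece with a gadget whose centre may be off the path
-/

set_option autoImplicit false

namespace AEW

open Finset AE15 AED AELT AEV
open scoped Classical

theorem Off.ctx {b j : ℕ} {σ : Bool} {c : Fd} (h : Off b j σ c) : ∃ (K : Cx) (cy : Fd), K.sg.length ≤ j + 1 ∧
    TopD (!σ) cy ∧ cy.len ≤ b ∧ c = K.plug (σ, cy) := by
  obtain ⟨N₀, cy, h1, h2, h3, h4 | ⟨K, d, h4, h5⟩⟩ := h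
  · exact ⟨N₀, cy, by rw [h1]; simp, h2, h3, h4⟩
  · refine ⟨K.cmp d N₀, cy, ?_, h2, h3, ?_⟩
    · rw [Cx.sg_cmp, List.length_append, List.length_cons, h1, List.length_nil]
      omega
    · rw [Cx.plug_cmp]
      exact h5

variable {V : Type} {R : V → V → Prop}

/-- composition of the parts of the segment -/
theorem gad_asm {M₁ N M₂ K : Cx} {cy : Fd} {σ d₁ d₂ d d' : Bool} (hN : N.sg = []) (hNK : N.un = K.plug (σ, cy))
    {u₁ e₁ z₁ x₀ z u₂ e₂ w w' : V} {B₁ B₃ E B₂ : Finset V} (k1 : EmbC R K z₁ B₃ x₀) (hx : Adj R σ x₀ z)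
    (hcy : Emb R cy z E) (a6 : EmbC R M₁ u₁ B₁ e₁) (a2 : Adj R d₁ e₁ z₁) (p1 : Adj R d₂ z₁ u₂)
    (p6 : EmbC R M₂ u₂ B₂ e₂) (a1 : Adj R d w u₁) (p2 : Adj R d' e₂ w') (k2 : z₁ ∉ B₃) (a3 : u₁ ∉ B₁) (p3 : u₂ ∉ B₂)
    (D12 : Disjoint (insert u₁ B₁) (insert z₁ B₃)) (D13 : Disjoint (insert u₁ B₁) E)
    (D14 : Disjoint (insert u₁ B₁) (insert u₂ B₂)) (D23 : Disjoint (insert z₁ B₃) E)
    (D24 : Disjoint (insert z₁ B₃) (insert u₂ B₂)) (D34 : Disjoint E (insert u₂ B₂))
    (hz : z ∉ insert u₁ B₁ ∪ (insert z₁ B₃ ∪ (E ∪ insert u₂ B₂))) :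
    Pl R [Pd.two w d (M₁.cmp d₁ (N.cmp d₂ M₂)) d' w'] (insert z (insert u₁ B₁ ∪ (insert z₁ B₃ ∪ (E ∪ insert u₂ B₂)))) := by
  simp only [mem_union, not_or] at hz
  obtain ⟨z1, z2, z3, z4⟩ := hz
  have z2' : z ≠ z₁ ∧ z ∉ B₃ := by rw [mem_insert, not_or] at z2; exact z2
  rw [disjoint_insert_left] at D23
  have f1 := EmbC.plug k1 (d := σ) (c := cy) (w := z) hx z3 hcy (by
    rw [disjoint_insert_right]
    exact ⟨z2'.2, D23.2⟩)
  rw [← hNK] at f1
  have f2 := EmbC.cmp (embC_top hN f1) p1 p6 p3 (by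
    rw [disjoint_insert_right, disjoint_union_right, disjoint_insert_right]
    rw [disjoint_insert_left] at D24
    exact ⟨D24.1, D24.2.symm, z4, D34.symm⟩)
  have f3 := EmbC.cmp a6 a2 f2 (by
    simp only [mem_union, mem_insert, not_or]
    rw [disjoint_insert_left, mem_insert, not_or] at D24
    exact ⟨⟨k2, z2'.1.symm, D23.1⟩, D24.1.1, D24.1.2⟩) (by
    rw [disjoint_insert_left, disjoint_union_left, disjoint_union_left, disjoint_insert_left]
    rw [disjoint_insert_right] at D12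
    exact ⟨D12.1, ⟨D12.2.symm, z1, D13.symm⟩, D14.symm⟩)
  refine ⟨u₁, e₂, _, ∅, a1, ?_, f3, p2, disjoint_empty_right _, ?_, rfl⟩
  · simp only [mem_union, mem_insert, not_or]
    rw [disjoint_insert_left] at D12 D13 D14
    rw [mem_insert, not_or] at z1
    have h1 := D12.1
    have h2 := D14.1
    rw [mem_insert, not_or] at h1 h2
    exact ⟨a3, h1.1, ⟨h1.2, fun h => z1.1 h.symm, D13.1⟩, h2.1, h2.2⟩
  · ext t
    simp only [mem_insert, mem_union, notMem_empty, or_false]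
    tauto

/-- a segment with the centre off its path -/
theorem gad_off (hT : AE32.Tour R) {b j m : ℕ} {w : V} {d : Bool} {M : Cx} {d' : Bool} {w' : V} (σ : Bool)
    (hp : ∃ (M₁ N M₂ : Cx) (d₁ d₂ : Bool), M = M₁.cmp d₁ (N.cmp d₂ M₂) ∧ N.sg = [] ∧ Good2 1 M₁ ∧ Good2 1 M₂ ∧
      Off b j σ N.un)
    (hm : (Pd.two w d M d' w' : Pd V).sz ≤ m) {l : List V}
    (hl : l.length = b + 1) (hnd : l.Nodup) {S : Finset V} (hlS : ∀ x ∈ l, x ∉ S)
    (hS : ∀ y, (y ∈ (Pd.two w d M d' w' : Pd V).hosts ∨ y ∈ l) → ∀ d, 4096 * (4 * (j + 1) + 1) * m ≤ (nb R d S y).card) :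
    ∃ B : Finset V, B ⊆ S ∪ l.toFinset ∧ B.card + 1 = (Pd.two w d M d' w' : Pd V).sz ∧
      ∀ z, z ∉ B → (∀ x ∈ l, Adj R σ x z) → Pl R [Pd.two w d M d' w'] (insert z B) := by
  obtain ⟨M₁, N, M₂, d₁, d₂, rfl, hN, hM₁, hM₂, hOff⟩ := hp
  obtain ⟨K, cy, hK, hcy, hcyb, hNK⟩ := hOff.ctx
  have hbig : 4096 * m ≤ 4096 * (4 * (j + 1) + 1) * m := Nat.mul_le_mul_right m (by omega)
  have hw : ∀ d, 4096 * m ≤ (nb R d S w).card := fun d => hbig.trans (hS w (Or.inl (by simp [Pd.hosts])) d)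
  have hw' : ∀ d, 4096 * m ≤ (nb R d S w').card := fun d => hbig.trans (hS w' (Or.inl (by simp [Pd.hosts])) d)
  have hszN : N.un.size = K.un.size + (cy.size + 1) := by rw [hNK, Cx.size_plug]
  have hsz : (M₁.cmp d₁ (N.cmp d₂ M₂)).un.size = M₁.un.size + (N.un.size + (M₂.un.size + 1) + 1) := by
    rw [Cx.size_cmp, Cx.size_cmp]
  simp only [Pd.sz] at hm ⊢
  rw [hsz, hszN] at hm
  match l, hl, hnd, hlS, hS with
  | [], hl, _, _, _ => simp at hl
  | x₀ :: l', hl, hnd, hlS, hS =>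
    rw [List.nodup_cons] at hnd
    simp only [List.length_cons] at hl
    obtain ⟨xs, hxs'⟩ : ∃ xs, xs = l'.take cy.len := ⟨_, rfl⟩
    have hll : xs.length = cy.len := by rw [hxs', List.length_take]; omega
    have hsub : ∀ x ∈ xs, x ∈ l' := fun x hx => by rw [hxs'] at hx; exact List.mem_of_mem_take hx
    have hln : x₀ ∉ xs ∧ xs.Nodup := ⟨fun h => hnd.1 (hsub _ h), by rw [hxs']; exact hnd.2.take⟩
    have h2 : ∀ x ∈ x₀ :: l', ∀ d, 4096 * m ≤ (nb R d S x).card := fun x hx d => hbig.trans (hS x (Or.inr hx) d)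
    have hx₀ : x₀ ∈ x₀ :: l' := List.mem_cons_self ..
    have hxs : ∀ x ∈ xs, x ∈ x₀ :: l' := fun x hx => List.mem_cons_of_mem _ (hsub x hx)
    have hNS' : ∀ x ∈ x₀ :: l', x ∉ S := hlS
    have hx₀S := hNS' x₀ hx₀
    have hxS : ∀ x ∈ xs, x ∉ S := fun x hx => hNS' x (hxs x hx)
    -- the way from the centre to the path
    obtain ⟨z₁, B₃, k1, k2, k3, k4, -, k6⟩ := back hT (K := 4096 * m) (S := S) (W := ∅) hx₀S K 0 (by
        rw [empty_inter, card_empty]; omega) (fun d => by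
        have h3 := hS x₀ (Or.inr hx₀) d
        have h4 := nb_lev hT (4096 * m) S (0 + K.sg.length) d x₀
        have h5 : 4 * (4096 * m) * (0 + K.sg.length) ≤ 4 * (4096 * m) * (j + 1) := Nat.mul_le_mul_left _ (by omega)
        have h6 : 4096 * (4 * (j + 1) + 1) * m = 4 * (4096 * m) * (j + 1) + 4096 * m := by ring
        omega)
    simp only [lev] at k6
    have hBc := k1.card
    have hz₁ : z₁ = x₀ ∨ z₁ ∈ S := k3.imp (fun h => h.2) (fun h => h.1)
    have hx₀B : x₀ = z₁ ∨ x₀ ∈ B₃ := k3.imp (fun h => h.2.symm) (fun h => h.2.2)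
    have hB₃ : ∀ t ∈ B₃, t = x₀ ∨ t ∈ S := fun t ht => mem_insert.1 (k4 ht)
    have hzxs : z₁ ∉ xs := by
      intro h
      rcases hz₁ with h' | h'
      · exact hln.1 (h' ▸ h)
      · exact hxS z₁ h h'
    have hBxs : ∀ t ∈ B₃, t ∉ xs := by
      intro t ht h
      rcases hB₃ t ht with h' | h'
      · exact hln.1 (h' ▸ h)
      · exact hxS t h h'
    have cI : (insert z₁ B₃ ∩ S).card ≤ K.un.size + 1 := by
      refine (card_le_card inter_subset_left).trans ?_
      rw [card_insert_of_notMem k2, hBc]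
    -- the trees at the centre
    obtain ⟨Ay, g1, g2, g3, g4⟩ := centre hT (S := S) (sg := σ) cy (W := insert z₁ B₃) (xs := xs) hcy (by omega)
      hln.2 hxS (fun x hx d => by
        have := h2 x (hxs x hx) d
        omega)
    obtain ⟨W2, hW2⟩ : ∃ W2, W2 = insert z₁ B₃ ∪ Ay := ⟨_, rfl⟩
    have c2 : (W2 ∩ S).card ≤ K.un.size + 1 + cy.size := by
      rw [hW2]
      refine (card_union_inter_le' _ _ _).trans ?_
      omega
    -- the two parts of the path
    obtain ⟨u₁, B₁, e₁, a1, a2, a3, a4, a5, a6⟩ := seg_between hT hM₁ (S := S) (W := W2) (v := w) (v' := z₁) (d := d)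
      (d' := d₁) (by have := hw d; omega) (by have := k6 (!d₁); omega)
    obtain ⟨W3, hW3⟩ : ∃ W3, W3 = W2 ∪ insert u₁ B₁ := ⟨_, rfl⟩
    have c3 : (W3 ∩ S).card ≤ K.un.size + 1 + cy.size + (M₁.un.size + 1) := by
      rw [hW3]
      refine (card_union_inter_le' _ _ _).trans ?_
      rw [card_insert_of_notMem a3, a6.card]
      omega
    obtain ⟨u₂, B₂, e₂, p1, p2, p3, p4, p5, p6⟩ := seg_between hT hM₂ (S := S) (W := W3) (v := z₁)
      (v' := w') (d := d₂) (d' := d') (by have := k6 d₂; omega) (by have := hw' (!d'); omega)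
    obtain ⟨E, hE⟩ : ∃ E, E = xs.toFinset ∪ Ay := ⟨_, rfl⟩
    rw [hW2, disjoint_union_right] at a5
    rw [hW3, hW2, disjoint_union_right, disjoint_union_right] at p5
    have hxd : ∀ {Q : Finset V}, Q ⊆ S → Disjoint Q xs.toFinset := fun {Q} hQ => by
      rw [disjoint_left]
      intro t ht ht'
      exact hxS t (List.mem_toFinset.1 ht') (hQ ht)
    have D12 : Disjoint (insert u₁ B₁) (insert z₁ B₃) := a5.1
    have D13 : Disjoint (insert u₁ B₁) E := by
      rw [hE, disjoint_union_right]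
      exact ⟨hxd a4, a5.2⟩
    have D14 : Disjoint (insert u₁ B₁) (insert u₂ B₂) := p5.2.symm
    have D23 : Disjoint (insert z₁ B₃) E := by
      rw [hE, disjoint_union_right]
      refine ⟨?_, g2.symm⟩
      rw [disjoint_left]
      intro t ht ht'
      rcases mem_insert.1 ht with h | h
      · exact hzxs (h ▸ List.mem_toFinset.1 ht')
      · exact hBxs t h (List.mem_toFinset.1 ht')
    have D24 : Disjoint (insert z₁ B₃) (insert u₂ B₂) := p5.1.1.symm
    have D34 : Disjoint E (insert u₂ B₂) := by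
      rw [hE, disjoint_union_left]
      exact ⟨(hxd p4).symm, p5.1.2.symm⟩
    have hEc : E.card = cy.size := by
      rw [hE, card_union_of_disjoint (hxd g1).symm, List.toFinset_card_of_nodup hln.2]
      omega
    refine ⟨insert u₁ B₁ ∪ (insert z₁ B₃ ∪ (E ∪ insert u₂ B₂)), ?_, ?_, fun z hz hzN => ?_⟩
    · have h3 : insert z₁ B₃ ⊆ S ∪ (x₀ :: l').toFinset := by
        intro t ht
        rw [mem_union, List.mem_toFinset]
        rcases mem_insert.1 ht with h | h
        · rcases hz₁ with h' | h'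
          · exact Or.inr (by rw [h, h']; exact hx₀)
          · exact Or.inl (by rw [h]; exact h')
        · rcases hB₃ t h with h' | h'
          · exact Or.inr (by rw [h']; exact hx₀)
          · exact Or.inl h'
      have h4 : E ⊆ S ∪ (x₀ :: l').toFinset := by
        intro t ht
        rw [mem_union, List.mem_toFinset]
        rw [hE, mem_union, List.mem_toFinset] at ht
        rcases ht with h | h
        · exact Or.inr (hxs t h)
        · exact Or.inl (g1 h)
      exact union_subset (a4.trans subset_union_left) (union_subset h3 (union_subset h4 (p4.trans subset_union_left)))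
    · rw [card_union_of_disjoint (by
          rw [disjoint_union_right, disjoint_union_right]
          exact ⟨D12, D13, D14⟩), card_union_of_disjoint (by
          rw [disjoint_union_right]
          exact ⟨D23, D24⟩), card_union_of_disjoint D34, card_insert_of_notMem a3, card_insert_of_notMem k2,
        card_insert_of_notMem p3, hEc, hsz, hszN, a6.card, hBc, p6.card]
      omega
    · have hzx : ∀ x ∈ x₀ :: xs, Adj R σ x z := fun x hx => hzN x (by
        rcases List.mem_cons.1 hx with h | h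
        · rw [h]; exact hx₀
        · exact hxs x h)
      have hcyE : Emb R cy z E := by
        rw [hE]
        exact g4 z fun x hx => hzx x (List.mem_cons_of_mem _ hx)
      exact gad_asm hN hNK k1 (hzx x₀ (List.mem_cons_self ..)) hcyE a6 a2 p1 p6 a1 p2 k2 a3 p3 D12 D13 D14 D23 D24 D34 hz

/-- **one gadget** -/
theorem gadL_place (j : ℕ) : ∃ K : ℕ, ∀ {V : Type} {R : V → V → Prop}, AE32.Tour R → ∀ {b m : ℕ} {p : Pd V}, p.GadL b j →
    p.sz ≤ m → ∀ (σ : Bool) {l : List V}, l.length = b + 1 → l.Nodup → ∀ {S : Finset V}, (∀ x ∈ l, x ∉ S) →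
    (∀ y, (y ∈ p.hosts ∨ y ∈ l) → ∀ d, K * m ≤ (nb R d S y).card) →
    ∃ B : Finset V, B ⊆ S ∪ l.toFinset ∧ B.card + 1 = p.sz ∧
      ∀ z, z ∉ B → (∀ x ∈ l, Adj R σ x z) → Pl R [p] (insert z B) := by
  refine ⟨4096 * (4 * (j + 1) + 1), ?_⟩
  intro V R hT b m p hp hm σ l hl hnd S hlS hS
  have hbig : 4096 * m ≤ 4096 * (4 * (j + 1) + 1) * m := Nat.mul_le_mul_right m (by omega)
  cases p with
  | one w d q =>
    exact gad_place hT (p := .one w d q) hp hm σ hl hnd hlS fun y hy d => hbig.trans (hS y hy d)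
  | two w d M d' w' =>
    rcases hp σ with h | h
    · exact gad_two hT σ h hm hl hnd hlS fun y hy d => hbig.trans (hS y hy d)
    · exact gad_off hT σ h hm hl hnd hlS hS

end AEW
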