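import Pool.Agent.AEWL.ExactL

/-!
# Many gadgets from one gadget
-/

set_option autoImplicit false

namespace AEW

open Finset AE15 AED AELT AEV
open scoped Classical

/-- the statement of `gadL_place` for the constant `K` -/
def GadK (j K : ℕ) : Prop := ∀ {V : Type} {R : V → V → Prop}, AE32.Tour R → ∀ {b m : ℕ} {p : Pd V}, p.GadL b j →
    p.sz ≤ m → ∀ (σ : Bool) {l : List V}, l.length = b + 1 → l.Nodup → ∀ {S : Finset V}, (∀ x ∈ l, x ∉ S) →
    (∀ y, (y ∈ p.hosts ∨ y ∈ l) → ∀ d, K * m ≤ (nb R d S y).card) →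
    ∃ B : Finset V, B ⊆ S ∪ l.toFinset ∧ B.card + 1 = p.sz ∧
      ∀ z, z ∉ B → (∀ x ∈ l, Adj R σ x z) → Pl R [p] (insert z B)

theorem gadsK_of {j K : ℕ} (hgp : GadK j K) : GadsK j K := by
  intro V R hT b m gs
  induction gs with
  | nil =>
    intro _ _ S _ _
    refine ⟨∅, empty_subset _, rfl, ?_⟩
    intro Z hZ _
    have h0 : Z = ∅ := hZ
    subst h0
    show (∅ ∪ ∅ : Finset V) = ∅
    simp
  | cons g gs ih =>
    intro h1 hN S hNS hS
    simp only [List.map_cons, List.sum_cons, List.flatMap_cons, List.length_cons] at hS hN ⊢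
    rw [List.nodup_append] at hN
    obtain ⟨n1, n2, n3⟩ := hN
    obtain ⟨g1, g2, g3⟩ := h1 g (List.mem_cons_self ..)
    obtain ⟨B1, b1, b2, b3⟩ := hgp hT g1 g2 g.2.1 g3 n1 (hNS g (List.mem_cons_self ..))
      (fun y hy d => le_trans (Nat.le_add_left _ _) (hS g (List.mem_cons_self ..) y hy d))
    have hB1 : B1.card ≤ m := by omega
    obtain ⟨B2, c1, c2, c3⟩ := ih (fun g' hg' => h1 g' (List.mem_cons_of_mem _ hg')) n2 (S := S \ B1)
      (fun g' hg' x hx hm => hNS g' (List.mem_cons_of_mem _ hg') x hx (mem_sdiff.1 hm).1) (by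
      intro g' hg' w hw d
      have h3 := hS g' (List.mem_cons_of_mem _ hg') w hw d
      have h2 : (nb R d S w).card ≤ (nb R d (S \ B1) w).card + B1.card := by
        refine le_trans (card_le_card ?_) (card_union_le _ _)
        intro u hu
        rw [nb, mem_filter] at hu
        rw [mem_union, nb, mem_filter, mem_sdiff]
        by_cases hB : u ∈ B1
        · exact Or.inr hB
        · exact Or.inl ⟨⟨hu.1, hB⟩, hu.2⟩
      have h4 : (gs.length + 1) * m = gs.length * m + m := by ring
      omega)
    have hd : Disjoint B1 B2 := by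
      rw [disjoint_left]
      intro u hu1 hu2
      have h3 := b1 hu1
      have h2 := c1 hu2
      rw [mem_union, List.mem_toFinset] at h3 h2
      rw [mem_sdiff] at h2
      rcases h2 with h2 | h2
      · exact h2.2 hu1
      · rcases h3 with h3 | h3
        · obtain ⟨g', hg', hu⟩ := List.mem_flatMap.1 h2
          exact hNS g' (List.mem_cons_of_mem _ hg') u hu h3
        · exact n3 u h3 u h2 rfl
    refine ⟨B1 ∪ B2, ?_, ?_, ?_⟩
    · intro u hu
      rw [List.toFinset_append]
      rcases mem_union.1 hu with hu | hu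
      · rcases mem_union.1 (b1 hu) with h | h
        · exact mem_union_left _ h
        · exact mem_union_right _ (mem_union_left _ h)
      · rcases mem_union.1 (c1 hu) with h | h
        · exact mem_union_left _ (mem_sdiff.1 h).1
        · exact mem_union_right _ (mem_union_right _ h)
    · rw [card_union_of_disjoint hd]
      omega
    · intro Z hZ hBZ
      obtain ⟨z, A, hz1, rfl, hz2, hz3⟩ := hZ
      rw [disjoint_insert_right, disjoint_union_left, mem_union] at hBZ
      obtain ⟨k1, k2, k3⟩ := hBZ
      push Not at k1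
      have P1 := b3 z k1.1 hz2
      have P2 := c3 A hz3 k3
      have hd2 : Disjoint (insert z B1) (B2 ∪ A) := by
        rw [disjoint_insert_left, disjoint_union_right, mem_union]
        refine ⟨?_, hd, k2⟩
        rintro (h | h)
        · exact k1.2 h
        · exact hz1 h
      have P3 := P1.cons P2 hd2
      have e : insert z B1 ∪ (B2 ∪ A) = B1 ∪ B2 ∪ insert z A := by
        ext t
        simp only [mem_union, mem_insert]
        tauto
      rw [e] at P3
      exact P3

theorem gadsSt_of {j : ℕ} (h : ∃ K : ℕ, GadK j K) : GadsSt j := by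
  obtain ⟨K, hK⟩ := h
  exact ⟨K, gadsK_of hK⟩

end AEW
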