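import Pool.Agent.AEWL.FitEx
import Pool.Agent.AEWL.GadL
import Pool.Agent.AEWL.GadsL

/-!
# The exact theorem
-/

set_option autoImplicit false

namespace AEW

theorem gadsL_place (j : ℕ) : GadsSt j := gadsSt_of (gadL_place j)

theorem fitE (b l : ℕ) (hb : 1 ≤ b) : FitE b l := fitE_of b l hb (gadsL_place l)

end AEW
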