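import Pool.Agent.AEWL.DefsL
import Pool.Agent.AEW.Main

/-!
# Trees with sufficiently many places without long directed paths: from the decomposition to the embedding
-/

set_option autoImplicit false

namespace AEW

open Finset AE15 AED AELT
open scoped Classical

section

variable {α : Type}

/-- a run gives a path of labels -/
theorem rl_path (P : α → α → Prop) (f : α → Bool) (d : Bool) (T : Tr α) : ∀ v, T.Par P v → ∀ n ≤ rl d (T.or f),
    ∃ p : ℕ → α, p 0 = v ∧ ∀ i < n, P (p i) (p (i + 1)) ∧ f (p (i + 1)) = d := by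
  induction T with
  | nil =>
    intro v _ n hn
    simp only [Tr.or, rl, Nat.le_zero] at hn
    subst hn
    exact ⟨fun _ => v, rfl, fun i hi => absurd hi (Nat.not_lt_zero i)⟩
  | node a c s ihc ihs =>
    rintro v ⟨h1, h2, h3⟩ n hn
    simp only [Tr.or, rl, le_max_iff] at hn
    rcases hn with hn | hn
    · rcases n with _ | n
      · exact ⟨fun _ => v, rfl, fun i hi => absurd hi (Nat.not_lt_zero i)⟩
      · split_ifs at hn with hf
        · obtain ⟨p, p1, p2⟩ := ihc a h2 n (by omega)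
          refine ⟨fun i => match i with | 0 => v | j + 1 => p j, rfl, ?_⟩
          intro i hi
          rcases i with _ | i
          · simp only [p1]
            exact ⟨h1, hf⟩
          · exact p2 i (by omega)
        · omega
    · exact ihs v h3 n hn

/-- no long runs where all labels are marked -/
theorem bd_of {l : ℕ} {P : α → α → Prop} {f : α → Bool} {Q : α → Prop}
    (H : ∀ p : ℕ → α, (∀ i ≤ l, P (p i) (p (i + 1))) → Q (p 0) → ∀ d, ∃ i ≤ l, f (p (i + 1)) ≠ d) (T : Tr α) :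
    ∀ v, T.Par P v → Q v → T.All Q → Bd l (T.or f) := by
  induction T with
  | nil => intro v _ _ _; trivial
  | node a c s ihc ihs =>
    intro v hP hv hQ
    refine ⟨fun e => ?_, ihc a hP.2.1 hQ.1 hQ.2.1, ihs v hP.2.2 hv hQ.2.2⟩
    by_contra hcon
    rw [not_le] at hcon
    obtain ⟨p, p1, p2⟩ := rl_path P f e (.node a c s) v hP (l + 1) hcon
    obtain ⟨i, i1, i2⟩ := H p (fun i hi => (p2 i (by omega)).1) (by rw [p1]; exact hv) e
    exact i2 (p2 i (by omega)).2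

theorem CT.par_plug {P : α → α → Prop} {a' : α} {c' : Tr α} (M : CT α) : ∀ v, (M.plug a' c').Par P v →
    M.un.Par P v ∧ c'.Par P a' := by
  induction M with
  | here s => intro v h; exact ⟨h.2.2, h.2.1⟩
  | dn a t s ih =>
    intro v h
    obtain ⟨h1, h2⟩ := ih a h.2.1
    exact ⟨⟨h.1, h1, h.2.2⟩, h2⟩
  | nx a c t ih =>
    intro v h
    obtain ⟨h1, h2⟩ := ih v h.2.2
    exact ⟨⟨h.1, h.2.1, h1⟩, h2⟩

theorem CT.un_len_le {a' : α} {c' : Tr α} (M : CT α) : M.un.len ≤ (M.plug a' c').len := by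
  induction M with
  | here s => simp only [CT.un, CT.plug, Tr.len]; omega
  | dn a t s ih => simp only [CT.un, CT.plug, Tr.len]; omega
  | nx a c t ih => simp only [CT.un, CT.plug, Tr.len]; omega

theorem CT.un_deg {b : ℕ} {a' : α} {c' : Tr α} (M : CT α) (h : (M.plug a' c').Deg b) :
    M.un.Deg b ∧ c'.len ≤ b ∧ c'.Deg b := by
  induction M with
  | here s => exact ⟨h.2.2, h.1, h.2.1⟩
  | dn a t s ih =>
    obtain ⟨h1, h2, h3⟩ := h
    obtain ⟨k1, k2⟩ := ih h2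
    exact ⟨⟨t.un_len_le.trans h1, k1, h3⟩, k2⟩
  | nx a c t ih =>
    obtain ⟨h1, h2, h3⟩ := h
    obtain ⟨k1, k2⟩ := ih h3
    exact ⟨⟨h1, h2, k1⟩, k2⟩

theorem CT.or_un (f : α → Bool) (M : CT α) : (M.or f).un = M.un.or f := by
  induction M with
  | here s => rfl
  | dn a t s ih => simp only [CT.or, CT.un, Cx.un, Tr.or, ih]
  | nx a c t ih => simp only [CT.or, CT.un, Cx.un, Tr.or, ih]

theorem CT.or_plug (f : α → Bool) (a' : α) (c' : Tr α) (M : CT α) :
    (M.or f).plug (f a', c'.or f) = (M.plug a' c').or f := by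
  induction M with
  | here s => rfl
  | dn a t s ih => simp only [CT.or, CT.plug, Cx.plug, Tr.or, ih]
  | nx a c t ih => simp only [CT.or, CT.plug, Cx.plug, Tr.or, ih]

theorem DT.or_un (f : α → Bool) (D : DT α) : (D.or f).un = D.un.or f := by
  induction D with
  | nil => rfl
  | node a c s ihc ihs => simp only [DT.or, DT.un, Dk.un, Tr.or, ihc, ihs]
  | pc1 a q s ihs => simp only [DT.or, DT.un, Dk.un, Tr.or, ihs]
  | pc2 a M a' c s ihc ihs => simp only [DT.or, DT.un, Dk.un, Tr.or, ihc, ihs, CT.or_plug]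

theorem shC_or (f : α → Bool) (M : CT α) : ShC M (M.or f) := by
  induction M with
  | here s => exact ⟨_, rfl, Sh.or f s⟩
  | dn a t s ih => exact ⟨_, _, _, rfl, ih, Sh.or f s⟩
  | nx a c t ih => exact ⟨_, _, _, rfl, Sh.or f c, ih⟩

theorem shD_or (f : α → Bool) (D : DT α) : ShD D (D.or f) := by
  induction D with
  | nil => rfl
  | node a c s ihc ihs => exact ⟨_, _, _, rfl, ihc, ihs⟩
  | pc1 a q s ihs => exact ⟨_, _, _, rfl, Sh.or f q, ihs⟩
  | pc2 a M a' c s ihc ihs => exact ⟨_, _, _, _, _, rfl, shC_or f M, ihc, ihs⟩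

/-- the marked pieces are good -/
theorem mc_le_gct {b l a m L : ℕ} {ε : ℝ}
    (hB1 : ∀ q : Fd, q.len ≤ b → q.Deg b → Bd l q → a ≤ q.size + 1 → Good1 ε q)
    (hB2 : ∀ M : Cx, M.un.len ≤ b → M.un.Deg b → Bd l M.un → L ≤ M.sg.length → a ≤ M.un.size + 1 → Good2 ε M)
    {P : α → α → Prop} {f : α → Bool} {Q : α → Prop}
    (H : ∀ p : ℕ → α, (∀ i ≤ l, P (p i) (p (i + 1))) → Q (p 0) → ∀ d, ∃ i ≤ l, f (p (i + 1)) ≠ d) (D : DT α) :
    ∀ v, D.un.len ≤ b → D.un.Deg b → D.un.Par P v → D.Sz a m L → D.mc Q ≤ (D.or f).gct ε := by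
  induction D with
  | nil => intro v _ _ _ _; exact le_rfl
  | node x c s ihc ihs =>
    intro v hl hd hP hS
    simp only [DT.un, Tr.len] at hl
    exact Nat.add_le_add (ihc x hd.1 hd.2.1 hP.2.1 hS.1) (ihs v (by omega) hd.2.2 hP.2.2 hS.2)
  | pc1 x q s ihs =>
    intro v hl hd hP hS
    simp only [DT.un, Tr.len] at hl
    obtain ⟨s1, s2, s3⟩ := hS
    have h1 := ihs v (by omega) hd.2.2 hP.2.2 s3
    simp only [DT.mc, DT.or, Dk.gct]
    by_cases hQ : Q x ∧ q.All Q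
    · have hg : Good1 ε (q.or f) := by
        have hsh := Sh.or f q
        refine hB1 _ ?_ (hsh.deg hd.2.1) (bd_of H q x hP.2.1 hQ.1 hQ.2) ?_
        · rw [hsh.len]
          exact hd.1
        · rw [hsh.size]
          exact s1
      rw [if_pos hQ, if_pos hg]
      omega
    · rw [if_neg hQ]
      omega
  | pc2 x M x' c s ihc ihs =>
    intro v hl hd hP hS
    simp only [DT.un, Tr.len] at hl
    obtain ⟨s1, s2, s3, s4, s5⟩ := hS
    obtain ⟨k1, k2, k3⟩ := CT.un_deg M hd.2.1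
    obtain ⟨p1, p2⟩ := CT.par_plug M x hP.2.1
    have h1 := ihs v (by omega) hd.2.2 hP.2.2 s5
    have h2 := ihc x' k2 k3 p2 s4
    simp only [DT.mc, DT.or, Dk.gct]
    by_cases hQ : Q x ∧ M.un.All Q
    · have hg : Good2 ε (M.or f) := by
        have hsh := Sh.or f M.un
        refine hB2 _ ?_ ?_ ?_ ?_ ?_
        · rw [CT.or_un, hsh.len]
          exact M.un_len_le.trans hd.1
        · rw [CT.or_un]
          exact hsh.deg k1
        · rw [CT.or_un]
          exact bd_of H M.un x p1 hQ.1 hQ.2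
        · rw [(shC_or f M).sg]
          exact s3
        · rw [CT.or_un, hsh.size]
          exact s1
      rw [if_pos hQ, if_pos hg]
      omega
    · rw [if_neg hQ]
      omega

end

/-- the statement of `loc_decomp` -/
def LocSt (b L R a : ℕ) : Prop := ∃ r A : ℕ, ∀ {α : Type} (Mk : ℕ → α → Prop),
    (∀ h h', h ≤ h' → ∀ x, Mk h x → Mk h' x) → ∀ (T : Tr α) (v : α), T.len ≤ b → T.Deg b → T.Par (Lip Mk) v →
      ∃ D : DT α, D.un = T ∧ D.Sz a (16 * b ^ 2 * (L + 1) * a) L ∧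
        2 ^ R * T.ct (Mk 0) ≤ b * (T.size + 1) + 2 ^ R * (A + (R + 1) * (16 * b ^ 2 * (L + 1) * a) * D.mc (Mk r))

theorem Tr.Par.mono {α : Type} {P P' : α → α → Prop} (h : ∀ x y, P x y → P' x y) (T : Tr α) :
    ∀ v, T.Par P v → T.Par P' v := by
  induction T with
  | nil => intro v _; trivial
  | node a c s ihc ihs => exact fun v hP => ⟨h _ _ hP.1, ihc a hP.2.1, ihs v hP.2.2⟩

theorem loc_fits_of (b l : ℕ) (hb : 1 ≤ b)
    (hB1 : ∀ ε : ℝ, 0 < ε → ∃ a₀ : ℕ, ∀ q : Fd, q.len ≤ b → q.Deg b → Bd l q → a₀ ≤ q.size + 1 → Good1 ε q)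
    (hB2 : ∀ ε : ℝ, 0 < ε → ∃ a₀ : ℕ, ∀ M : Cx, M.un.len ≤ b → M.un.Deg b → Bd l M.un → 3 * (l + 1) ≤ M.sg.length →
      a₀ ≤ M.un.size + 1 → Good2 ε M)
    (hA : ∀ R a : ℕ, 1 ≤ a → LocSt b (3 * (l + 1)) R a) {θ : ℝ} (hθ : 0 < θ) : ∃ r C : ℕ, ∀ {α : Type}
      (P : α → α → Prop) (f : α → Bool) (Mk : ℕ → α → Prop), (∀ h h', h ≤ h' → ∀ x, Mk h x → Mk h' x) →
      (∀ x y, P x y → Lip Mk x y) →
      (∀ p : ℕ → α, (∀ i ≤ l, P (p i) (p (i + 1))) → Mk r (p 0) → ∀ d, ∃ i ≤ l, f (p (i + 1)) ≠ d) →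
        ∀ (T : Tr α) (v : α), T.len ≤ b → T.Deg b → T.Par P v → θ * (T.size + 1) ≤ T.ct (Mk 0) → Fits C (T.or f) := by
  obtain ⟨L, hL⟩ : ∃ L : ℕ, L = 3 * (l + 1) := ⟨_, rfl⟩
  obtain ⟨B, hB⟩ : ∃ B : ℕ, B = 16 * b ^ 2 * (L + 1) := ⟨_, rfl⟩
  have hBp : 1 ≤ B := by
    rw [hB]
    have h1 : 1 ≤ b ^ 2 := Nat.one_le_pow _ _ hb
    have h2 : 1 ≤ b ^ 2 * (L + 1) := Nat.mul_pos h1 (by omega)
    calc 1 ≤ b ^ 2 * (L + 1) := h2
      _ ≤ 16 * (b ^ 2 * (L + 1)) := by omega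
      _ = 16 * b ^ 2 * (L + 1) := by ring
  have hBR : (1 : ℝ) ≤ B := by exact_mod_cast hBp
  obtain ⟨R, hR⟩ := pow_unbounded_of_one_lt (4 * b / θ) (one_lt_two : (1 : ℝ) < 2)
  obtain ⟨ε, hε, h⟩ := absorb b hb (θ := θ / (2 * (R + 1) * B)) (by positivity)
  obtain ⟨a₁, ha₁⟩ := hB1 ε hε
  obtain ⟨a₂, ha₂⟩ := hB2 ε hε
  obtain ⟨a, ha⟩ : ∃ a : ℕ, a = max 1 (max a₁ a₂) := ⟨_, rfl⟩
  have ha0 : 1 ≤ a := by rw [ha]; exact le_max_left _ _
  have ha1 : a₁ ≤ a := by rw [ha]; exact (le_max_left _ _).trans (le_max_right _ _)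
  have ha2 : a₂ ≤ a := by rw [ha]; exact (le_max_right _ _).trans (le_max_right _ _)
  obtain ⟨r, A, hrA⟩ := hA R a ha0
  obtain ⟨C, hC⟩ := h (B * a)
  obtain ⟨n₁, hn₁⟩ := exists_nat_ge (4 * A / θ)
  refine ⟨r, max C (3 * n₁), ?_⟩
  intro α P f Mk hmono hLip H T v hl hd hP hct
  obtain ⟨D, d1, d2, d3⟩ := hrA Mk hmono T v hl hd (Tr.Par.mono hLip T v hP)
  rw [← hL, ← hB] at d2 d3
  have hsz : (T.or f).size = T.size := (Sh.or f T).size
  have hlen : (T.or f).len ≤ b := by rw [(Sh.or f T).len]; exact hl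
  have hdeg : (T.or f).Deg b := (Sh.or f T).deg hd
  rcases Nat.lt_or_ge (T.size + 1) n₁ with hs | hs
  · -- a small tree
    intro V R' hT X hX
    refine AEX.un_four hT b (T.or f) hlen hdeg X ?_
    have h2 : 4 * ((T.or f).size + 1) ≤ X.card := by
      have := le_max_right C (3 * n₁)
      rw [hsz] at hX ⊢
      omega
    have h3 : ((4 * ((T.or f).size + 1) : ℕ) : ℝ) ≤ X.card := by exact_mod_cast h2
    push_cast at h3
    linarith
  · have hn : 4 * A / θ ≤ (T.size : ℝ) + 1 := by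
      have : (n₁ : ℝ) ≤ T.size + 1 := by exact_mod_cast hs
      linarith
    have hn' : (A : ℝ) ≤ θ / 4 * (T.size + 1) := by
      rw [div_le_iff₀ hθ] at hn
      linarith
    have hmc : D.mc (Mk r) ≤ (D.or f).gct ε := by
      rw [← d1] at hl hd hP
      exact mc_le_gct (fun q q1 q2 q3 q4 => ha₁ q q1 q2 q3 (ha1.trans q4))
        (fun M m1 m2 m3 m4 m5 => ha₂ M m1 m2 m3 (by rw [← hL]; exact m4) (ha2.trans m5)) H D v hl hd hP d2
    have hfit : Fits C (T.or f) := by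
      obtain ⟨D', e1, e2, e3, -⟩ := opnX ε a (B * a) L b (D.or f) ((shD_or f D).sz.2 d2)
      rw [DT.or_un, d1] at e1
      rw [← e1] at hlen hdeg ⊢
      refine hC D' hlen hdeg e2 ?_
      rw [e1, hsz]
      have hpow : (0 : ℝ) < 2 ^ R := by positivity
      have f1 : (2 : ℝ) ^ R * T.ct (Mk 0) ≤ b * (T.size + 1) + 2 ^ R * (A + (R + 1) * (B * a) * D.mc (Mk r)) := by
        exact_mod_cast d3
      have f2 : (b : ℝ) * (T.size + 1) ≤ 2 ^ R * (θ / 4 * (T.size + 1)) := by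
        rw [div_lt_iff₀ hθ] at hR
        have : (0 : ℝ) ≤ (T.size : ℝ) + 1 := by positivity
        nlinarith
      have f3 : (T.ct (Mk 0) : ℝ) ≤ θ / 4 * (T.size + 1) + (A + (R + 1) * (B * a) * D.mc (Mk r)) := by
        have f4 : (2 : ℝ) ^ R * T.ct (Mk 0) ≤
            2 ^ R * (θ / 4 * (T.size + 1) + (A + (R + 1) * (B * a) * D.mc (Mk r))) := by
          rw [mul_add]
          linarith
        exact le_of_mul_le_mul_left f4 hpow
      have f5 : ((a * D.mc (Mk r) : ℕ) : ℝ) ≤ D'.psz := by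
        exact_mod_cast (Nat.mul_le_mul_left a hmc).trans e3
      have f6 : ((R : ℝ) + 1) * (B * a) * D.mc (Mk r) = (R + 1) * B * ((a * D.mc (Mk r) : ℕ) : ℝ) := by
        push_cast; ring
      have f7 : ((R : ℝ) + 1) * B * ((a * D.mc (Mk r) : ℕ) : ℝ) ≤ (R + 1) * B * D'.psz :=
        mul_le_mul_of_nonneg_left f5 (by positivity)
      rw [div_mul_eq_mul_div, div_le_iff₀ (by positivity)]
      rw [f6] at f3
      linarith
    intro V R' hT X hX
    exact hfit hT X (by have := le_max_left C (3 * n₁); omega)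

end AEW
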