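import Pool.Agent.AEWL.Loc

/-!
# A decomposition with many pieces near a given set of vertices: the induction
-/

set_option autoImplicit false

namespace AEW

open Finset AE15 AED AELT
open scoped Classical

variable {α : Type} {Mk : ℕ → α → Prop} {a b m L R : ℕ}

/-- the state of every forest -/
theorem exists_ost (hm : ∀ h h', h ≤ h' → ∀ x, Mk h x → Mk h' x) (ha : 1 ≤ a) (hb : 1 ≤ b)
    (hmm : 16 * b * (L + 1) * a ≤ m) (F : Tr α) : F.Deg b → ∀ v : α, F.Par (Lip Mk) v →
      ∃ o, o ≤ F.len * (m - 1) ∧ Ost Mk a b m L R v F o := by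
  have hm1 : 1 ≤ m := le_trans (Nat.one_le_iff_ne_zero.2 (by positivity)) hmm
  induction F with
  | nil => intro _ v _; exact ⟨0, by omega, Or.inl rfl⟩
  | node x c s ihc ihs =>
    rintro ⟨g1, g2, g3⟩ v hP
    obtain ⟨p1, p2, p3⟩ := id hP
    obtain ⟨oc, hc1, hc2⟩ := ihc g2 x p2
    obtain ⟨os, hs1, hs2⟩ := ihs g3 v p3
    have e1 : (s.len + 1) * (m - 1) = s.len * (m - 1) + (m - 1) := by ring
    have hlen : (Tr.node x c s).len = s.len + 1 := rfl
    have hsize : (Tr.node x c s).size = c.size + s.size + 1 := rfl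
    rw [hlen, e1]
    by_cases hclo : m ≤ oc + 1
    · -- the root of the first tree is closed
      have hoc : oc + 1 ≤ b * m := by
        have h1 : c.len * (m - 1) ≤ b * (m - 1) := Nat.mul_le_mul_right _ g1
        have h2 : b * (m - 1) + b = b * m := by
          have : m - 1 + 1 = m := by omega
          calc b * (m - 1) + b = b * (m - 1 + 1) := by ring
            _ = b * m := by rw [this]
        omega
      obtain ⟨d, k⟩ := hc2.close hm p2 ha g1 g2 hmm hclo hb hoc
      refine ⟨os, by omega, ?_⟩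
      rcases hs2.wst hm p3 with ⟨e, -⟩ | ⟨-, w⟩ | w
      · right; left
        exact ⟨.here s, x, c, d, rfl, k, e⟩
      · right; right
        exact wst_close hm hP k w
      · right; right
        exact (wst_close hm hP k w).mono (by omega)
    · -- the first tree is open
      refine ⟨oc + 1 + os, by omega, ?_⟩
      rcases hc2.wst hm p2 with ⟨ec, wc⟩ | ⟨⟨M, y, e, d, h1, h2, h3⟩, wc⟩ | wc
      · rcases hs2.wst hm p3 with ⟨es, -⟩ | ⟨⟨N, y, e, d, h1, h2, h3⟩, -⟩ | ws
        · left; rw [hsize]; omega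
        · right; left
          refine ⟨.nx x c N, y, e, d, by simp only [CT.plug, h1], h2, ?_⟩
          simp only [CT.un, Tr.size]; omega
        · right; right
          exact (wst_open hm hP wc ws).mono (by omega)
      · rcases hs2.wst hm p3 with ⟨es, -⟩ | ⟨-, ws⟩ | ws
        · right; left
          refine ⟨.dn x M s, y, e, d, by simp only [CT.plug, h1], h2, ?_⟩
          simp only [CT.un, Tr.size]; omega
        · right; right
          exact wst_open hm hP wc ws
        · right; right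
          exact (wst_open hm hP wc ws).mono (by omega)
      · rcases hs2.wst hm p3 with ⟨es, ws⟩ | ⟨-, ws⟩ | ws
        · right; right
          exact wst_open hm hP wc ws
        · right; right
          exact (wst_open hm hP wc ws).mono (by omega)
        · right; right
          exact (wst_open hm hP wc ws).mono (by omega)

/-- **A decomposition of a tree of bounded degree into pieces of size about `a` which has many pieces near a given set** -/
theorem loc_decomp (b L R : ℕ) (hb : 1 ≤ b) (a : ℕ) (ha : 1 ≤ a) : ∃ r A : ℕ, ∀ {α : Type} (Mk : ℕ → α → Prop),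
    (∀ h h', h ≤ h' → ∀ x, Mk h x → Mk h' x) → ∀ (T : Tr α) (v : α), T.len ≤ b → T.Deg b → T.Par (Lip Mk) v →
      ∃ D : DT α, D.un = T ∧ D.Sz a (16 * b ^ 2 * (L + 1) * a) L ∧
        2 ^ R * T.ct (Mk 0) ≤ b * (T.size + 1) + 2 ^ R * (A + (R + 1) * (16 * b ^ 2 * (L + 1) * a) * D.mc (Mk r)) := by
  obtain ⟨m, hm0⟩ : ∃ m, m = 16 * b * (L + 1) * a := ⟨_, rfl⟩
  have hm1 : 1 ≤ m := by rw [hm0]; exact Nat.one_le_iff_ne_zero.2 (by positivity)
  have e : 16 * b ^ 2 * (L + 1) * a = b * m := by rw [hm0]; ring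
  rw [e]
  refine ⟨(R + 2) * (2 * (b * m)), b * m, ?_⟩
  intro α Mk hm T v hl hD hP
  obtain ⟨o, h1, h2⟩ := exists_ost (R := R) hm ha hb hm0.symm.le T hD v hP
  have hoK : o ≤ b * m := h1.trans (Nat.mul_le_mul hl (by omega))
  have key : ∃ j, Wst Mk a b m L R j v T o := by
    rcases h2.wst hm hP with ⟨-, w⟩ | ⟨-, w⟩ | w
    · exact ⟨0, w⟩
    · exact ⟨1, w⟩
    · exact ⟨2, w⟩
  obtain ⟨j, D, n, β, d, σ, k1, k2, k3, k4, k5, k6, k7⟩ := key
  refine ⟨D, k1, k2, ?_⟩
  have h3 : T.ct (Mk 0) ≤ b * m + b * m * β + (R + 1) * (b * m) * D.mc (Mk ((R + 2) * (2 * (b * m)))) := by omega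
  have h4 : 2 ^ R * (b * m * β) ≤ b * (T.size + 1) := by
    calc 2 ^ R * (b * m * β) = b * ((2 ^ R * β) * m) := by ring
      _ ≤ b * (n * m) := Nat.mul_le_mul_left _ (Nat.mul_le_mul_right _ (by omega))
      _ ≤ b * (T.size + 1) := Nat.mul_le_mul_left _ (by omega)
  calc 2 ^ R * T.ct (Mk 0) ≤ 2 ^ R * (b * m + b * m * β + (R + 1) * (b * m) * D.mc (Mk ((R + 2) * (2 * (b * m))))) :=
        Nat.mul_le_mul_left _ h3
    _ = 2 ^ R * (b * m * β) + 2 ^ R * (b * m + (R + 1) * (b * m) * D.mc (Mk ((R + 2) * (2 * (b * m))))) := by ring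
    _ ≤ _ := by
        exact Nat.add_le_add_right h4 _

end AEW
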