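import Pool.Agent.AEWL.Fit
import Pool.Agent.AEWL.Bd
import Pool.Agent.AEWL.LocD

/-!
# Trees with sufficiently many places without long directed paths: the theorem for codes
-/

set_option autoImplicit false

namespace AEW

open Finset AE15 AED AELT
open scoped Classical

/-- **theorem LOC for codes** -/
theorem loc_fits (b l : ℕ) (hb : 1 ≤ b) {θ : ℝ} (hθ : 0 < θ) : ∃ r C : ℕ, ∀ {α : Type} (P : α → α → Prop)
    (f : α → Bool) (Mk : ℕ → α → Prop), (∀ h h', h ≤ h' → ∀ x, Mk h x → Mk h' x) → (∀ x y, P x y → Lip Mk x y) →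
      (∀ p : ℕ → α, (∀ i ≤ l, P (p i) (p (i + 1))) → Mk r (p 0) → ∀ d, ∃ i ≤ l, f (p (i + 1)) ≠ d) →
        ∀ (T : Tr α) (v : α), T.len ≤ b → T.Deg b → T.Par P v → θ * (T.size + 1) ≤ T.ct (Mk 0) → Fits C (T.or f) :=
  loc_fits_of b l hb (fun _ hε => bd_good1 b l hε) (fun _ hε => bd_good2 b l hε)
    (fun R a ha => loc_decomp b _ R hb a ha) hθ

end AEW
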