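import Pool.Agent.AEWL.Fit
import Pool.Agent.AEWL.Bd
import Pool.Agent.AEWL.LocD
import Pool.Agent.AEWL.DefsE

/-!
# Trees with sufficiently many places without long directed paths: from the decomposition to the exact embedding
-/

set_option autoImplicit false

namespace AEW

open Finset AE15 AED AELT
open scoped Classical

/-- a forest without pieces -/
private def plainL : Fd → Dk
  | .nil => .nil
  | .node d c s => .node d (plainL c) (plainL s)

private theorem plainL_un (c : Fd) : (plainL c).un = c := by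
  induction c with
  | nil => rfl
  | node d c s ihc ihs => simp only [plainL, Dk.un, ihc, ihs]

private theorem plainL_ok (ε : ℝ) (m : ℕ) (c : Fd) : (plainL c).Ok ε m := by
  induction c with
  | nil => trivial
  | node d c s ihc ihs => exact ⟨ihc, ihs⟩

private theorem plainL_psz (c : Fd) : (plainL c).psz = 0 := by
  induction c with
  | nil => rfl
  | node d c s ihc ihs => simp only [plainL, Dk.psz, ihc, ihs]

private theorem plainL_act (ε : ℝ) (b j : ℕ) (c : Fd) : (plainL c).actL ε b j = 0 := by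
  induction c with
  | nil => rfl
  | node d c s ihc ihs => simp only [plainL, Dk.actL, ihc, ihs]

/-- a forest with pieces is put into a hole, the rest being ordinary vertices -/
private def plugL (d' : Bool) (c : Dk) : Cx → Dk
  | .here s => .node d' c (plainL s)
  | .dn d t s => .node d (plugL d' c t) (plainL s)
  | .nx d q t => .node d (plainL q) (plugL d' c t)

private theorem plugL_un (d' : Bool) (c : Dk) (M : Cx) : (plugL d' c M).un = M.plug (d', c.un) := by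
  induction M with
  | here s => simp only [plugL, Dk.un, Cx.plug, plainL_un]
  | dn d t s ih => simp only [plugL, Dk.un, Cx.plug, plainL_un, ih]
  | nx d q t ih => simp only [plugL, Dk.un, Cx.plug, plainL_un, ih]

private theorem plugL_ok {ε : ℝ} {m : ℕ} (d' : Bool) {c : Dk} (hc : c.Ok ε m) (M : Cx) : (plugL d' c M).Ok ε m := by
  induction M with
  | here s => exact ⟨hc, plainL_ok ε m s⟩
  | dn d t s ih => exact ⟨ih, plainL_ok ε m s⟩
  | nx d q t ih => exact ⟨plainL_ok ε m q, ih⟩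

private theorem plugL_psz (d' : Bool) (c : Dk) (M : Cx) : (plugL d' c M).psz = c.psz := by
  induction M with
  | here s => simp only [plugL, Dk.psz, plainL_psz, add_zero]
  | dn d t s ih => simp only [plugL, Dk.psz, plainL_psz, ih, add_zero]
  | nx d q t ih => simp only [plugL, Dk.psz, plainL_psz, ih, zero_add]

private theorem plugL_act (ε : ℝ) (b j : ℕ) (d' : Bool) (c : Dk) (M : Cx) :
    (plugL d' c M).actL ε b j = c.actL ε b j := by
  induction M with
  | here s => simp only [plugL, Dk.actL, plainL_act, add_zero]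
  | dn d t s ih => simp only [plugL, Dk.actL, plainL_act, ih, add_zero]
  | nx d q t ih => simp only [plugL, Dk.actL, plainL_act, ih, zero_add]

/-- the bad pieces become ordinary vertices; the gadgetable good pieces remain -/
theorem opnL (ε : ℝ) (a m L b j : ℕ) (D : Dk) (hD : D.Sz a m L) :
    ∃ D' : Dk, D'.un = D.un ∧ D'.Ok ε m ∧ a * D.gct ε ≤ D'.psz ∧ D'.actL ε b j = D.actL ε b j := by
  induction D with
  | nil => exact ⟨.nil, rfl, trivial, by simp [Dk.gct], rfl⟩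
  | node d c s ihc ihs =>
    obtain ⟨C', c1, c2, c3, c4⟩ := ihc hD.1
    obtain ⟨S', s1, s2, s3, s4⟩ := ihs hD.2
    refine ⟨.node d C' S', ?_, ⟨c2, s2⟩, ?_, ?_⟩
    · simp only [Dk.un, c1, s1]
    · simp only [Dk.gct, Dk.psz, mul_add]
      omega
    · simp only [Dk.actL, c4, s4]
  | pc1 d q s ihs =>
    obtain ⟨h1, h2, h3⟩ := hD
    obtain ⟨S', s1, s2, s3, s4⟩ := ihs h3
    by_cases hg : Good1 ε q
    · refine ⟨.pc1 d q S', ?_, ⟨hg, h2, s2⟩, ?_, ?_⟩
      · simp only [Dk.un, s1]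
      · simp only [Dk.gct, Dk.psz, if_pos hg, mul_add, mul_one]
        omega
      · simp only [Dk.actL, s4]
    · refine ⟨.node d (plainL q) S', ?_, ⟨plainL_ok ε m q, s2⟩, ?_, ?_⟩
      · simp only [Dk.un, s1, plainL_un]
      · simp only [Dk.gct, Dk.psz, if_neg hg, plainL_psz, add_zero, zero_add]
        exact s3
      · simp only [Dk.actL, plainL_act, s4, if_neg (fun h : Good1 ε q ∧ Gad1 b q => hg h.1)]
  | pc2 d M d' c s ihc ihs =>
    obtain ⟨h1, h2, -, h3, h4⟩ := hD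
    obtain ⟨C', c1, c2, c3, c4⟩ := ihc h3
    obtain ⟨S', s1, s2, s3, s4⟩ := ihs h4
    by_cases hg : Good2 ε M
    · refine ⟨.pc2 d M d' C' S', ?_, ⟨hg, h2, c2, s2⟩, ?_, ?_⟩
      · simp only [Dk.un, c1, s1]
      · simp only [Dk.gct, Dk.psz, if_pos hg, mul_add, mul_one]
        omega
      · simp only [Dk.actL, c4, s4]
    · refine ⟨.node d (plugL d' C' M) S', ?_, ⟨plugL_ok d' c2 M, s2⟩, ?_, ?_⟩
      · simp only [Dk.un, plugL_un, c1, s1]
      · simp only [Dk.gct, Dk.psz, if_neg hg, plugL_psz, add_zero, mul_add]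
        omega
      · simp only [Dk.actL, plugL_act, c4, s4, if_neg (fun h : Good2 ε M ∧ Gad2L b j M => hg h.1), zero_add]

/-- the marked pieces are good and gadgetable -/
theorem mc_le_act {α : Type} {b l j a m L : ℕ} {ε : ℝ}
    (hB1 : ∀ q : Fd, q.len ≤ b → q.Deg b → Bd l q → a ≤ q.size + 1 → Good1 ε q ∧ Gad1 b q)
    (hB2 : ∀ M : Cx, M.un.len ≤ b → M.un.Deg b → Bd l M.un → L ≤ M.sg.length → a ≤ M.un.size + 1 →
      Good2 ε M ∧ Gad2L b j M)
    {P : α → α → Prop} {f : α → Bool} {Q : α → Prop}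
    (H : ∀ p : ℕ → α, (∀ i ≤ l, P (p i) (p (i + 1))) → Q (p 0) → ∀ d, ∃ i ≤ l, f (p (i + 1)) ≠ d) (D : DT α) :
    ∀ v, D.un.len ≤ b → D.un.Deg b → D.un.Par P v → D.Sz a m L → D.mc Q ≤ (D.or f).actL ε b j := by
  induction D with
  | nil => intro v _ _ _ _; exact le_rfl
  | node x c s ihc ihs =>
    intro v hl hd hP hS
    simp only [DT.un, Tr.len] at hl
    exact Nat.add_le_add (ihc x hd.1 hd.2.1 hP.2.1 hS.1) (ihs v (by omega) hd.2.2 hP.2.2 hS.2)
  | pc1 x q s ihs =>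
    intro v hl hd hP hS
    simp only [DT.un, Tr.len] at hl
    obtain ⟨s1, s2, s3⟩ := hS
    have h1 := ihs v (by omega) hd.2.2 hP.2.2 s3
    simp only [DT.mc, DT.or, Dk.actL]
    by_cases hQ : Q x ∧ q.All Q
    · have hg : Good1 ε (q.or f) ∧ Gad1 b (q.or f) := by
        have hsh := Sh.or f q
        refine hB1 _ ?_ (hsh.deg hd.2.1) (bd_of H q x hP.2.1 hQ.1 hQ.2) ?_
        · rw [hsh.len]
          exact hd.1
        · rw [hsh.size]
          exact s1
      rw [if_pos hQ, if_pos hg]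
      omega
    · rw [if_neg hQ]
      omega
  | pc2 x M x' c s ihc ihs =>
    intro v hl hd hP hS
    simp only [DT.un, Tr.len] at hl
    obtain ⟨s1, s2, s3, s4, s5⟩ := hS
    obtain ⟨k1, k2, k3⟩ := CT.un_deg M hd.2.1
    obtain ⟨p1, p2⟩ := CT.par_plug M x hP.2.1
    have h1 := ihs v (by omega) hd.2.2 hP.2.2 s5
    have h2 := ihc x' k2 k3 p2 s4
    simp only [DT.mc, DT.or, Dk.actL]
    by_cases hQ : Q x ∧ M.un.All Q
    · have hg : Good2 ε (M.or f) ∧ Gad2L b j (M.or f) := by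
        have hsh := Sh.or f M.un
        refine hB2 _ ?_ ?_ ?_ ?_ ?_
        · rw [CT.or_un, hsh.len]
          exact M.un_len_le.trans hd.1
        · rw [CT.or_un]
          exact hsh.deg k1
        · rw [CT.or_un]
          exact bd_of H M.un x p1 hQ.1 hQ.2
        · rw [(shC_or f M).sg]
          exact s3
        · rw [CT.or_un, hsh.size]
          exact s1
      rw [if_pos hQ, if_pos hg]
      omega
    · rw [if_neg hQ]
      omega

/-- **theorem LOC-EXACT for codes**, from the exact absorption theorem and the existence of gadgets -/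
theorem loc_fitsE_of (b l : ℕ) (hb : 1 ≤ b) (hAL : AbsorbLSt b l)
    (hG1 : ∃ a₀ : ℕ, ∀ q : Fd, q.len ≤ b → q.Deg b → Bd l q → a₀ ≤ q.size + 1 → Gad1 b q)
    (hG2 : ∃ L₀ : ℕ, ∀ M : Cx, M.un.len ≤ b → M.un.Deg b → Bd l M.un → L₀ ≤ M.sg.length → Gad2L b l M)
    {θ : ℝ} (hθ : 0 < θ) : ∃ r n₀ : ℕ, ∀ {α : Type}
      (P : α → α → Prop) (f : α → Bool) (Mk : ℕ → α → Prop), (∀ h h', h ≤ h' → ∀ x, Mk h x → Mk h' x) →
      (∀ x y, P x y → Lip Mk x y) →
      (∀ p : ℕ → α, (∀ i ≤ l, P (p i) (p (i + 1))) → Mk r (p 0) → ∀ d, ∃ i ≤ l, f (p (i + 1)) ≠ d) →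
        ∀ (T : Tr α) (v : α), T.len ≤ b → T.Deg b → T.Par P v → n₀ ≤ T.size → θ * (T.size + 1) ≤ T.ct (Mk 0) →
          Fits 0 (T.or f) := by
  obtain ⟨L₀, hL₀⟩ := hG2
  obtain ⟨L, hL⟩ : ∃ L : ℕ, L = max (3 * (l + 1)) L₀ := ⟨_, rfl⟩
  have hL1 : 3 * (l + 1) ≤ L := by rw [hL]; exact le_max_left _ _
  have hL2 : L₀ ≤ L := by rw [hL]; exact le_max_right _ _
  obtain ⟨B, hB⟩ : ∃ B : ℕ, B = 16 * b ^ 2 * (L + 1) := ⟨_, rfl⟩
  have hBp : 1 ≤ B := by
    rw [hB]
    have h1 : 1 ≤ b ^ 2 := Nat.one_le_pow _ _ hb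
    have h2 : 1 ≤ b ^ 2 * (L + 1) := Nat.mul_pos h1 (by omega)
    calc 1 ≤ b ^ 2 * (L + 1) := h2
      _ ≤ 16 * (b ^ 2 * (L + 1)) := by omega
      _ = 16 * b ^ 2 * (L + 1) := by ring
  have hBR : (1 : ℝ) ≤ B := by exact_mod_cast hBp
  obtain ⟨R, hR⟩ := pow_unbounded_of_one_lt (4 * b / θ) (one_lt_two : (1 : ℝ) < 2)
  obtain ⟨ε, hε, h⟩ := hAL (θ / (2 * (R + 1) * B)) (by positivity)
  obtain ⟨a₁, ha₁⟩ := bd_good1 b l hε
  obtain ⟨a₂, ha₂⟩ := bd_good2 b l hε
  obtain ⟨a₃, ha₃⟩ := hG1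
  obtain ⟨a, ha⟩ : ∃ a : ℕ, a = max 1 (max a₁ (max a₂ a₃)) := ⟨_, rfl⟩
  have ha0 : 1 ≤ a := by rw [ha]; exact le_max_left _ _
  have ha1 : a₁ ≤ a := by rw [ha]; exact (le_max_left _ _).trans (le_max_right _ _)
  have ha2 : a₂ ≤ a := by
    rw [ha]; exact (le_max_left _ _).trans ((le_max_right _ _).trans (le_max_right _ _))
  have ha3 : a₃ ≤ a := by
    rw [ha]; exact (le_max_right _ _).trans ((le_max_right _ _).trans (le_max_right _ _))
  have haR : (1 : ℝ) ≤ a := by exact_mod_cast ha0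
  obtain ⟨r, A, hrA⟩ := loc_decomp b L R hb a ha0
  obtain ⟨n₀, hn₀⟩ := h (B * a) (θ / (2 * (R + 1) * B * a)) (by positivity)
  obtain ⟨n₁, hn₁⟩ := exists_nat_ge (4 * A / θ)
  refine ⟨r, max n₀ n₁, ?_⟩
  intro α P f Mk hmono hLip H T v hl hd hP hT hct
  obtain ⟨D, d1, d2, d3⟩ := hrA Mk hmono T v hl hd (Tr.Par.mono hLip T v hP)
  rw [← hB] at d2 d3
  have hsz : (T.or f).size = T.size := (Sh.or f T).size
  have hlen : (T.or f).len ≤ b := by rw [(Sh.or f T).len]; exact hl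
  have hdeg : (T.or f).Deg b := (Sh.or f T).deg hd
  have hT0 : n₀ ≤ T.size := (le_max_left _ _).trans hT
  have hT1 : n₁ ≤ T.size := (le_max_right _ _).trans hT
  have hn : 4 * A / θ ≤ (T.size : ℝ) + 1 := by
    have : (n₁ : ℝ) ≤ T.size := by exact_mod_cast hT1
    linarith
  have hn' : (A : ℝ) ≤ θ / 4 * (T.size + 1) := by
    rw [div_le_iff₀ hθ] at hn
    linarith
  have hmc : D.mc (Mk r) ≤ (D.or f).gct ε ∧ D.mc (Mk r) ≤ (D.or f).actL ε b l := by
    rw [← d1] at hl hd hP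
    constructor
    · exact mc_le_gct (fun q q1 q2 q3 q4 => ha₁ q q1 q2 q3 (ha1.trans q4))
        (fun M m1 m2 m3 m4 m5 => ha₂ M m1 m2 m3 (hL1.trans m4) (ha2.trans m5)) H D v hl hd hP d2
    · exact mc_le_act (fun q q1 q2 q3 q4 => ⟨ha₁ q q1 q2 q3 (ha1.trans q4), ha₃ q q1 q2 q3 (ha3.trans q4)⟩)
        (fun M m1 m2 m3 m4 m5 => ⟨ha₂ M m1 m2 m3 (hL1.trans m4) (ha2.trans m5), hL₀ M m1 m2 m3 (hL2.trans m4)⟩)
        H D v hl hd hP d2
  obtain ⟨D', e1, e2, e3, e4⟩ := opnL ε a (B * a) L b l (D.or f) ((shD_or f D).sz.2 d2)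
  rw [DT.or_un, d1] at e1
  rw [← e1] at hlen hdeg
  have hpow : (0 : ℝ) < 2 ^ R := by positivity
  have f1 : (2 : ℝ) ^ R * T.ct (Mk 0) ≤ b * (T.size + 1) + 2 ^ R * (A + (R + 1) * (B * a) * D.mc (Mk r)) := by
    exact_mod_cast d3
  have f2 : (b : ℝ) * (T.size + 1) ≤ 2 ^ R * (θ / 4 * (T.size + 1)) := by
    rw [div_lt_iff₀ hθ] at hR
    have : (0 : ℝ) ≤ (T.size : ℝ) + 1 := by positivity
    nlinarith
  have f3 : (T.ct (Mk 0) : ℝ) ≤ θ / 4 * (T.size + 1) + (A + (R + 1) * (B * a) * D.mc (Mk r)) := by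
    have f4 : (2 : ℝ) ^ R * T.ct (Mk 0) ≤
        2 ^ R * (θ / 4 * (T.size + 1) + (A + (R + 1) * (B * a) * D.mc (Mk r))) := by
      rw [mul_add]
      linarith
    exact le_of_mul_le_mul_left f4 hpow
  have f0 : θ * (T.size + 1) ≤ 2 * ((R + 1) * (B * a) * D.mc (Mk r)) := by linarith
  intro V R' hTo X hX
  rw [← e1] at hX ⊢
  refine hn₀ D' hlen hdeg e2 ?_ ?_ (by rw [e1, hsz]; exact hT0) hTo X hX
  · rw [e1, hsz]
    have f5 : ((a * D.mc (Mk r) : ℕ) : ℝ) ≤ D'.psz := by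
      exact_mod_cast (Nat.mul_le_mul_left a hmc.1).trans e3
    have f6 : ((R : ℝ) + 1) * (B * a) * D.mc (Mk r) = (R + 1) * B * ((a * D.mc (Mk r) : ℕ) : ℝ) := by
      push_cast; ring
    have f7 : ((R : ℝ) + 1) * B * ((a * D.mc (Mk r) : ℕ) : ℝ) ≤ (R + 1) * B * D'.psz :=
      mul_le_mul_of_nonneg_left f5 (by positivity)
    rw [div_mul_eq_mul_div, div_le_iff₀ (by positivity)]
    rw [f6] at f0
    linarith
  · rw [e1, hsz, e4]
    have f5 : ((D.mc (Mk r) : ℕ) : ℝ) ≤ (D.or f).actL ε b l := by exact_mod_cast hmc.2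
    have f7 : ((R : ℝ) + 1) * (B * a) * D.mc (Mk r) ≤ (R + 1) * (B * a) * (D.or f).actL ε b l :=
      mul_le_mul_of_nonneg_left f5 (by positivity)
    rw [div_mul_eq_mul_div, div_le_iff₀ (by positivity)]
    linarith

end AEW
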