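import Pool.Agent.AEWL.FitE
import Pool.Agent.AEWL.BdGad
import Pool.Agent.AEWL.ExactL
import Pool.Agent.AEWL.GraphE

/-!
# The exact theorem for codes
-/

set_option autoImplicit false

namespace AEW

theorem fitE_of (b l : ℕ) (hb : 1 ≤ b) (hG : GadsSt l) : FitE b l := by
  intro θ hθ
  obtain ⟨r, n₀, h⟩ := loc_fitsE_of b l hb (absorbL_of b l hb hG) (bd_gad1 b l) (bd_gad2 b l) hθ
  exact ⟨r, n₀, fun P f Mk h1 h2 h3 T v t1 t2 t3 t4 t5 => h P f Mk h1 h2 h3 T v t1 t2 t3 t5 t4⟩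

end AEW
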