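import Pool.Agent.AEWL.Cut

/-!
# A decomposition with many pieces near a given set of vertices

A vertex is closed as soon as its open mass is at least `m`; a closed vertex with at most one closed subtree below its open
part gets a piece. `d` is the number of generations from a closed vertex down to the nearest piece; at most the fraction
`2 ^ (-R)` of the closed vertices has `d > R`.
-/

set_option autoImplicit false

namespace AEW

open Finset AE15 AED AELT
open scoped Classical

variable {α : Type} {Mk : ℕ → α → Prop} {a b m L R : ℕ}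

/-- a closed tree with root `x` and children forest `c` -/
def Cst (Mk : ℕ → α → Prop) (a b m L R : ℕ) (x : α) (c : Tr α) (d : ℕ) : Prop :=
  ∃ (D : DT α) (n β : ℕ), D.un = c ∧ D.Sz a (b * m) L ∧ n * m ≤ c.size + 1 ∧ 2 ^ R * β + 2 ^ min d R ≤ n ∧
    ((if Mk 0 x then 1 else 0) + c.ct (Mk 0)) + (if Mk ((R + 1 - d) * (2 * (b * m))) x then (R - d) * (b * m) else 0) ≤
      b * m * β + (R + 1) * (b * m) * D.mc (Mk ((R + 2) * (2 * (b * m))))

/-- a forest with `j` closed trees (at least `j`, if `j` is large) and open mass `o` -/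
def Wst (Mk : ℕ → α → Prop) (a b m L R : ℕ) (j : ℕ) (v : α) (F : Tr α) (o : ℕ) : Prop :=
  ∃ (D : DT α) (n β d σ : ℕ), D.un = F ∧ D.Sz a (b * m) L ∧ n * m + o ≤ F.size ∧ 2 ^ R * β + j * 2 ^ min d R ≤ n ∧
    σ ≤ o ∧ (0 < σ → Mk o v) ∧
    F.ct (Mk 0) + (if ∃ h, h + o + 1 ≤ (R + 1 - d) * (2 * (b * m)) ∧ Mk h v then (R - d) * (b * m) else 0) ≤
      σ + b * m * β + (R + 1) * (b * m) * D.mc (Mk ((R + 2) * (2 * (b * m))))

/-- the state of a forest with open mass `o`: no closed subtree, one closed subtree, at least two closed subtrees -/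
def Ost (Mk : ℕ → α → Prop) (a b m L R : ℕ) (v : α) (F : Tr α) (o : ℕ) : Prop :=
  o = F.size ∨
  (∃ (M : CT α) (x : α) (c : Tr α) (d : ℕ), F = M.plug x c ∧ Cst Mk a b m L R x c d ∧ o = M.un.size) ∨
  Wst Mk a b m L R 2 v F o

theorem Wst.mono {j j' : ℕ} (hj : j' ≤ j) {v : α} {F : Tr α} {o : ℕ} (h : Wst Mk a b m L R j v F o) :
    Wst Mk a b m L R j' v F o := by
  obtain ⟨D, n, β, d, σ, h1, h2, h3, h4, h5, h6, h7⟩ := h
  exact ⟨D, n, β, d, σ, h1, h2, h3, (Nat.add_le_add_left (Nat.mul_le_mul_right _ hj) _).trans h4, h5, h6, h7⟩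

/-- no closed trees -/
theorem wst_zero (hm : ∀ h h', h ≤ h' → ∀ x, Mk h x → Mk h' x) {v : α} {F : Tr α} (hP : F.Par (Lip Mk) v) :
    Wst Mk a b m L R 0 v F F.size := by
  refine ⟨ofT F, 0, 0, R + 1, F.ct (Mk 0), ofT_un F, ofT_sz F, by omega, by omega, ct_le _ _, fun h => ?_, ?_⟩
  · have := lip_up hm F hP h
    rwa [zero_add] at this
  · rw [show R + 1 - (R + 1) = 0 by omega, if_neg]
    · omega
    · rintro ⟨h, h1, -⟩
      omega

/-- one closed tree -/
theorem wst_one (hm : ∀ h h', h ≤ h' → ∀ x, Mk h x → Mk h' x) {v x : α} {M : CT α} {c : Tr α} {d : ℕ}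
    (hP : (M.plug x c).Par (Lip Mk) v) (hc : Cst Mk a b m L R x c d) :
    Wst Mk a b m L R 1 v (M.plug x c) M.un.size := by
  obtain ⟨D, n, β, h1, h2, h3, h4, h5⟩ := hc
  obtain ⟨k1, k2⟩ := par_un M hP
  refine ⟨ofCT x D M, n, β, d, M.un.ct (Mk 0), by rw [ofCT_un, h1], ofCT_sz h2 M, by rw [size_plugT]; omega, by omega,
    ct_le _ _, fun h => ?_, ?_⟩
  · have := lip_up hm M.un k1 h
    rwa [zero_add] at this
  · rw [ofCT_mc, ct_plugT]
    by_cases hh : ∃ h, h + M.un.size + 1 ≤ (R + 1 - d) * (2 * (b * m)) ∧ Mk h v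
    · rw [if_pos hh]
      obtain ⟨h, l1, l2⟩ := hh
      rw [if_pos (hm _ _ l1 _ (lip_hole hm M hP l2))] at h5
      omega
    · rw [if_neg hh]
      omega

/-- a closed tree and a forest -/
theorem wst_close (hm : ∀ h h', h ≤ h' → ∀ x, Mk h x → Mk h' x) {j : ℕ} {v x : α} {c s : Tr α} {d o : ℕ}
    (hP : (Tr.node x c s).Par (Lip Mk) v) (hc : Cst Mk a b m L R x c d) (hs : Wst Mk a b m L R j v s o) :
    Wst Mk a b m L R (j + 1) v (.node x c s) o := by
  obtain ⟨D, n, β, h1, h2, h3, h4, h5⟩ := hc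
  obtain ⟨D', n', β', d', σ, k1, k2, k3, k4, k5, k6, k7⟩ := hs
  obtain ⟨p1, p2, p3⟩ := hP
  have e1 : (n + n') * m = n * m + n' * m := by ring
  have e2 : 2 ^ R * (β + β') = 2 ^ R * β + 2 ^ R * β' := by ring
  have e3 : b * m * (β + β') = b * m * β + b * m * β' := by ring
  have hmn : ∀ y, min d d' ≤ y → 2 ^ min (min d d') R ≤ 2 ^ min y R := fun y hy =>
    Nat.pow_le_pow_right (by norm_num) (min_le_min_right _ hy)
  refine ⟨.node x D D', n + n', β + β', min d d', σ, by simp only [DT.un, h1, k1], ⟨h2, k2⟩, ?_, ?_, k5, k6, ?_⟩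
  · rw [e1]
    simp only [Tr.size]
    omega
  · have l1 := hmn d (min_le_left _ _)
    have l2 := Nat.mul_le_mul_left j (hmn d' (min_le_right _ _))
    rw [e2, add_mul, one_mul]
    omega
  · simp only [DT.mc, Tr.ct]
    rw [e3, mul_add]
    rcases le_total d d' with hd | hd
    · rw [min_eq_left hd]
      by_cases hh : ∃ h, h + o + 1 ≤ (R + 1 - d) * (2 * (b * m)) ∧ Mk h v
      · rw [if_pos hh]
        obtain ⟨h, l1, l2⟩ := hh
        have hx : Mk ((R + 1 - d) * (2 * (b * m))) x := hm _ _ (by omega) _ (p1.dn _ l2)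
        rw [if_pos hx] at h5
        omega
      · rw [if_neg hh]
        omega
    · rw [min_eq_right hd]
      omega

/-- an open tree and a forest -/
theorem wst_open (hm : ∀ h h', h ≤ h' → ∀ x, Mk h x → Mk h' x) {i j : ℕ} {v x : α} {c s : Tr α} {o o' : ℕ}
    (hP : (Tr.node x c s).Par (Lip Mk) v) (hc : Wst Mk a b m L R i x c o) (hs : Wst Mk a b m L R j v s o') :
    Wst Mk a b m L R (i + j) v (.node x c s) (o + 1 + o') := by
  obtain ⟨D, n, β, d, σ, h1, h2, h3, h4, h5, h6, h7⟩ := hc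
  obtain ⟨D', n', β', d', σ', k1, k2, k3, k4, k5, k6, k7⟩ := hs
  obtain ⟨p1, p2, p3⟩ := hP
  have e1 : (n + n') * m = n * m + n' * m := by ring
  have e2 : 2 ^ R * (β + β') = 2 ^ R * β + 2 ^ R * β' := by ring
  have e3 : b * m * (β + β') = b * m * β + b * m * β' := by ring
  have hmn : ∀ y, min d d' ≤ y → 2 ^ min (min d d') R ≤ 2 ^ min y R := fun y hy =>
    Nat.pow_le_pow_right (by norm_num) (min_le_min_right _ hy)
  refine ⟨.node x D D', n + n', β + β', min d d', σ + (if Mk 0 x then 1 else 0) + σ', by simp only [DT.un, h1, k1],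
    ⟨h2, k2⟩, ?_, ?_, ?_, ?_, ?_⟩
  · rw [e1]
    simp only [Tr.size]
    omega
  · have l1 := Nat.mul_le_mul_left i (hmn d (min_le_left _ _))
    have l2 := Nat.mul_le_mul_left j (hmn d' (min_le_right _ _))
    rw [e2, add_mul]
    omega
  · split_ifs <;> omega
  · intro h0
    rcases Nat.eq_zero_or_pos σ with g | g
    · rcases Nat.eq_zero_or_pos σ' with g' | g'
      · have hx : Mk 0 x := by
          by_contra hx
          rw [if_neg hx] at h0
          omega
        exact hm _ _ (by omega) _ (p1.up _ hx)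
      · exact hm _ _ (by omega) _ (k6 g')
    · exact hm _ _ (by omega) _ (p1.up _ (h6 g))
  · simp only [DT.mc, Tr.ct]
    rw [e3, mul_add]
    rcases le_total d d' with hd | hd
    · rw [min_eq_left hd]
      by_cases hh : ∃ h, h + (o + 1 + o') + 1 ≤ (R + 1 - d) * (2 * (b * m)) ∧ Mk h v
      · rw [if_pos hh]
        obtain ⟨h, l1, l2⟩ := hh
        rw [if_pos ⟨h + 1, by omega, p1.dn _ l2⟩] at h7
        omega
      · rw [if_neg hh]
        omega
    · rw [min_eq_right hd]
      by_cases hh : ∃ h, h + (o + 1 + o') + 1 ≤ (R + 1 - d') * (2 * (b * m)) ∧ Mk h v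
      · rw [if_pos hh]
        obtain ⟨h, l1, l2⟩ := hh
        rw [if_pos ⟨h, by omega, l2⟩] at k7
        omega
      · rw [if_neg hh]
        omega

/-- a state gives a decomposition -/
theorem Ost.wst (hm : ∀ h h', h ≤ h' → ∀ x, Mk h x → Mk h' x) {v : α} {F : Tr α} {o : ℕ} (hP : F.Par (Lip Mk) v)
    (h : Ost Mk a b m L R v F o) : (o = F.size ∧ Wst Mk a b m L R 0 v F o) ∨
      ((∃ (M : CT α) (x : α) (c : Tr α) (d : ℕ), F = M.plug x c ∧ Cst Mk a b m L R x c d ∧ o = M.un.size) ∧
        Wst Mk a b m L R 1 v F o) ∨ Wst Mk a b m L R 2 v F o := by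
  rcases h with h | ⟨M, x, c, d, h1, h2, h3⟩ | h
  · left
    subst h
    exact ⟨rfl, wst_zero hm hP⟩
  · right; left
    refine ⟨⟨M, x, c, d, h1, h2, h3⟩, ?_⟩
    subst h1 h3
    exact wst_one hm hP h2
  · right; right
    exact h

/-- a vertex is closed -/
theorem Ost.close (hm : ∀ h h', h ≤ h' → ∀ x, Mk h x → Mk h' x) {x : α} {F : Tr α} {o : ℕ} (hP : F.Par (Lip Mk) x)
    (h : Ost Mk a b m L R x F o) (ha : 1 ≤ a) (hl : F.len ≤ b) (hD : F.Deg b) (hmm : 16 * b * (L + 1) * a ≤ m)
    (ho : m ≤ o + 1) (hb : 1 ≤ b) (hK : o + 1 ≤ b * m) : ∃ d, Cst Mk a b m L R x F d := by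
  have hba : 1 ≤ b * a := Nat.one_le_iff_ne_zero.2 (by positivity)
  have e1 : 16 * b * (L + 1) * a = 16 * ((L + 1) * (b * a)) := by ring
  have e2 : b * a ≤ (L + 1) * (b * a) := Nat.le_mul_of_pos_left _ (by omega)
  rw [e1] at hmm
  obtain ⟨K, hKd⟩ : ∃ K, K = b * m := ⟨_, rfl⟩
  have hK1 : K ≤ (R + 1) * (2 * K) := by nlinarith
  have hK2 : (R + 2) * (2 * K) = (R + 1) * (2 * K) + 2 * K := by ring
  have hK3 : (R + 1) * K = R * K + K := by ring
  have hmk : ∀ (G : Tr α) (σ₀ : ℕ), G.size ≤ K → G.Par (Lip Mk) x → σ₀ ≤ G.size + 1 →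
      (0 < σ₀ → Mk 0 x ∨ 0 < G.ct (Mk 0)) →
      (¬ G.All (Mk ((R + 2) * (2 * K))) → σ₀ + (if Mk ((R + 1) * (2 * K)) x then R * K else 0) = 0) := by
    intro G σ₀ g1 g2 g3 g4 g5
    have hx : ¬ Mk ((R + 1) * (2 * K)) x := fun hx => g5 ((lip_dn hm G g2 hx).mono fun y hy => hm _ _ (by omega) _ hy)
    rw [if_neg hx]
    by_contra h0
    rcases g4 (by omega) with g | g
    · exact hx (hm _ _ (by omega) _ g)
    · exact hx (hm _ _ (by omega) _ (lip_up hm G g2 g))
  rcases h with h | ⟨M, y, e, d, h1, h2, h3⟩ | ⟨D, n, β, d, σ, h1, h2, h3, h4, h5, h6, h7⟩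
  · -- a leaf
    rcases big_orT (K := b * m) (a := a) (L := L) F (show F.size ≤ b * m by omega) with ⟨D, g1, g2, g3⟩ | g1
    · refine ⟨0, D, 1, 0, g1, g2, by omega, by simp, ?_⟩
      rw [← hKd]
      simp only [Nat.sub_zero]
      have hs : (if Mk 0 x then 1 else 0) + F.ct (Mk 0) ≤ F.size + 1 := by
        have := ct_le (Mk 0) F
        split_ifs <;> omega
      by_cases hA : F.All (Mk ((R + 2) * (2 * K)))
      · have h8 := g3 _ hA
        have h9 : (R + 1) * K * 1 ≤ (R + 1) * K * D.mc (Mk ((R + 2) * (2 * K))) := Nat.mul_le_mul_left _ h8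
        split_ifs at hs ⊢ <;> omega
      · have h8 := hmk F ((if Mk 0 x then 1 else 0) + F.ct (Mk 0)) (by omega) hP hs (fun h0 => by
          by_cases hx : Mk 0 x
          · exact Or.inl hx
          · rw [if_neg hx, zero_add] at h0
            exact Or.inr h0) hA
        rw [h8]
        exact Nat.zero_le _
    · exfalso
      have : F.len * a ≤ b * a := Nat.mul_le_mul_right _ hl
      omega
  · -- one closed tree below
    obtain ⟨D₀, n, β, k1, k2, k3, k4, k5⟩ := h2
    have hMl : M.un.len ≤ b := (un_lenT y e M).trans (by rw [← h1]; exact hl)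
    have hMD : M.un.Deg b := un_degT y e M (by rw [← h1]; exact hD)
    have hl2 : M.un.len * a ≤ b * a := Nat.mul_le_mul_right _ hMl
    have hMP : M.un.Par (Lip Mk) x := (par_un M (by rw [← h1]; exact hP)).1
    have hmain : ∃ D' : DT α, D'.un = M.plug y D₀.un ∧ D'.Sz a (b * m) L ∧ ∀ p : α → Prop, D₀.mc p ≤ D'.mc p ∧
        (M.un.All p → D₀.mc p + 1 ≤ D'.mc p) := by
      rcases side_orT (b := b) y k2 ha M (by omega) hMD with g | g
      · exact g
      · refine seg_orT y k2 M (by omega) ?_ ?_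
        · by_contra hc
          have h5 : M.pl ≤ L := by omega
          have h6 : M.pl * (b * a) ≤ L * (b * a) := Nat.mul_le_mul_right _ h5
          have h7 : (L + 1) * (b * a) = L * (b * a) + b * a := by ring
          omega
        · have h8 : a ≤ b * a := Nat.le_mul_of_pos_left _ (by omega)
          omega
    obtain ⟨D', g1, g2, g3⟩ := hmain
    refine ⟨0, D', n + 1, β, by rw [g1, k1, h1], g2, ?_, ?_, ?_⟩
    · rw [h1, size_plugT, add_mul, one_mul]
      omega
    · have : 1 ≤ 2 ^ min d R := Nat.one_le_two_pow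
      simp only [Nat.zero_min, pow_zero]
      omega
    · rw [← hKd] at k5 ⊢
      simp only [Nat.sub_zero]
      rw [h1, ct_plugT]
      have hs : (if Mk 0 x then 1 else 0) + M.un.ct (Mk 0) ≤ M.un.size + 1 := by
        have := ct_le (Mk 0) M.un
        split_ifs <;> omega
      obtain ⟨g4, g5⟩ := g3 (Mk ((R + 2) * (2 * K)))
      by_cases hA : M.un.All (Mk ((R + 2) * (2 * K)))
      · have h9 : (R + 1) * K * (D₀.mc (Mk ((R + 2) * (2 * K))) + 1) ≤ (R + 1) * K * D'.mc (Mk ((R + 2) * (2 * K))) :=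
          Nat.mul_le_mul_left _ (g5 hA)
        rw [mul_add, mul_one] at h9
        have h10 : (if Mk ((R + 1) * (2 * K)) x then R * K else 0) ≤ R * K := by split_ifs <;> omega
        omega
      · have h9 : (R + 1) * K * D₀.mc (Mk ((R + 2) * (2 * K))) ≤ (R + 1) * K * D'.mc (Mk ((R + 2) * (2 * K))) :=
          Nat.mul_le_mul_left _ g4
        have h8 := hmk M.un ((if Mk 0 x then 1 else 0) + M.un.ct (Mk 0)) (by omega) hMP hs (fun h0 => by
          by_cases hx : Mk 0 x
          · exact Or.inl hx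
          · rw [if_neg hx, zero_add] at h0
            exact Or.inr h0) hA
        omega
  · -- at least two closed trees below
    rw [← hKd] at h7
    have hσ : (if Mk 0 x then 1 else 0) + σ ≤ K := by
      split_ifs <;> omega
    rcases Nat.lt_or_ge d R with hd | hd
    · refine ⟨d + 1, D, n + 1, β, h1, h2, ?_, ?_, ?_⟩
      · rw [add_mul, one_mul]; omega
      · rw [min_eq_left (show d + 1 ≤ R by omega)]
        rw [min_eq_left hd.le] at h4
        rw [pow_succ]
        omega
      · rw [← hKd]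
        have e4 : R + 1 - (d + 1) = R - d := by omega
        have e5 : (R + 1 - d) * (2 * K) = (R - d) * (2 * K) + 2 * K := by
          rw [show R + 1 - d = (R - d) + 1 by omega]; ring
        have e6 : (R - d) * K = (R - (d + 1)) * K + K := by
          rw [show R - d = (R - (d + 1)) + 1 by omega]; ring
        have e7 : K ≤ (R - d) * (2 * K) := by
          have : 1 * (2 * K) ≤ (R - d) * (2 * K) := Nat.mul_le_mul_right _ (by omega)
          omega
        rw [e4]
        by_cases hx : Mk ((R - d) * (2 * K)) x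
        · rw [if_pos hx]
          rw [if_pos ⟨_, by rw [e5]; omega, hx⟩, e6] at h7
          omega
        · rw [if_neg hx]
          have hx0 : ¬ Mk 0 x := fun h => hx (hm _ _ (by omega) _ h)
          have hs0 : σ = 0 := by
            by_contra hs0
            exact hx (hm _ _ (by omega) _ (h6 (by omega)))
          rw [if_neg hx0]
          subst hs0
          omega
    · refine ⟨d + 1, D, n + 1, β + 1, h1, h2, ?_, ?_, ?_⟩
      · rw [add_mul, one_mul]; omega
      · rw [min_eq_right (show R ≤ d + 1 by omega)]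
        rw [min_eq_right hd] at h4
        rw [mul_add, mul_one]
        omega
      · rw [← hKd, show R - (d + 1) = 0 by omega, zero_mul, mul_add, mul_one]
        split_ifs at hσ ⊢ <;> omega

end AEW
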