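import Pool.Agent.AEWL.EndL
import Pool.Agent.AEW.Decomp
import Pool.Agent.AEN.Many

/-!
# A further branch is plugged into a forest with pieces
-/

set_option autoImplicit false

namespace AEW

open Finset AE15 AED AELT
open scoped Classical

variable {ε : ℝ} {m : ℕ}

theorem ofF_ok (F : Fd) : (ofF F).Ok ε m := by
  induction F with
  | nil => trivial
  | node d c s ihc ihs => exact ⟨ihc, ihs⟩

theorem ofF_psz (F : Fd) : (ofF F).psz = 0 := by
  induction F with
  | nil => rfl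
  | node d c s ihc ihs => simp only [ofF, Dk.psz, ihc, ihs]

theorem ofC_ok {p : Bool × Dk} (hp : p.2.Ok ε m) (M : Cx) : (ofC p M).Ok ε m := by
  induction M with
  | here s => exact ⟨hp, ofF_ok s⟩
  | dn d t s ih => exact ⟨ih, ofF_ok s⟩
  | nx d c t ih => exact ⟨ofF_ok c, ih⟩

theorem ofC_psz (p : Bool × Dk) (M : Cx) : (ofC p M).psz = p.2.psz := by
  induction M with
  | here s => simp only [ofC, Dk.psz, ofF_psz, add_zero]
  | dn d t s ih => simp only [ofC, Dk.psz, ofF_psz, ih, add_zero]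
  | nx d c t ih => simp only [ofC, Dk.psz, ofF_psz, ih, zero_add]

/-- the branch in the hole is a piece -/
def onC (d : Bool) (q : Fd) : Cx → Dk
  | .here s => .pc1 d q (ofF s)
  | .dn d1 t s => .node d1 (onC d q t) (ofF s)
  | .nx d1 c t => .node d1 (ofF c) (onC d q t)

theorem onC_un (d : Bool) (q : Fd) (M : Cx) : (onC d q M).un = M.plug (d, q) := by
  induction M with
  | here s => simp only [onC, Dk.un, Cx.plug, ofF_un]
  | dn d1 t s ih => simp only [onC, Dk.un, Cx.plug, ofF_un, ih]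
  | nx d1 c t ih => simp only [onC, Dk.un, Cx.plug, ofF_un, ih]

theorem onC_one (d : Bool) (q : Fd) (M : Cx) : AEN.One ε m q (onC d q M) := by
  induction M with
  | here s => exact Or.inl ⟨rfl, ofF_ok s⟩
  | dn d1 t s ih => exact Or.inl ⟨ih, ofF_ok s⟩
  | nx d1 c t ih => exact Or.inr ⟨ofF_ok c, ih⟩

theorem onC_psz (d : Bool) (q : Fd) (M : Cx) : (onC d q M).psz = q.size + 1 := by
  induction M with
  | here s => simp only [onC, Dk.psz, ofF_psz, zero_add]
  | dn d1 t s ih => simp only [onC, Dk.psz, ofF_psz, ih, add_zero]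
  | nx d1 c t ih => simp only [onC, Dk.psz, ofF_psz, ih, zero_add]

theorem psz_nil {D : Dk} (h : D.un = .nil) : D.psz = 0 := by
  cases D with
  | nil => rfl
  | node d c s => simp [Dk.un] at h
  | pc1 d q s => simp [Dk.un] at h
  | pc2 d M d' c s => simp [Dk.un] at h

theorem plug_ne_nil {p : Bool × Fd} (M : Cx) : M.plug p ≠ .nil := by
  cases M <;> simp [Cx.plug]

/-- two holes: the second hole is below the first one, or the segment is opened -/
theorem open_two {d d' : Bool} {cu : Fd} (M : Cx) : ∀ t : Cx, M.plug (d', cu) = t.plug (d, .nil) →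
    (∃ N : Cx, t = M.cmp d' N ∧ cu = N.plug (d, .nil)) ∨
      ∀ c : Dk, c.un = cu → c.Ok ε m → ∀ q : Fd, ∃ D : Dk, D.un = t.plug (d, q) ∧ AEN.One ε m q D ∧
        c.psz + (q.size + 1) ≤ D.psz := by
  induction M with
  | here s1 =>
    intro t h
    cases t with
    | here s' =>
      simp only [Cx.plug, Fd.node.injEq] at h
      obtain ⟨rfl, rfl, rfl⟩ := h
      right
      intro c hc hok q
      refine ⟨.pc1 d' q (ofF s1), by simp only [Dk.un, ofF_un, Cx.plug], Or.inl ⟨rfl, ofF_ok s1⟩, ?_⟩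
      simp only [Dk.psz, ofF_psz, psz_nil hc]
      omega
    | dn d2 t' s' =>
      simp only [Cx.plug, Fd.node.injEq] at h
      obtain ⟨rfl, rfl, rfl⟩ := h
      left
      exact ⟨t', rfl, rfl⟩
    | nx d2 c' t' =>
      simp only [Cx.plug, Fd.node.injEq] at h
      obtain ⟨rfl, rfl, rfl⟩ := h
      right
      intro c hc hok q
      refine ⟨.node d' c (onC d q t'), by simp only [Dk.un, hc, onC_un, Cx.plug], Or.inr ⟨hok, onC_one d q t'⟩, ?_⟩
      simp only [Dk.psz, onC_psz]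
      omega
  | dn d3 M' s1 ih =>
    intro t h
    cases t with
    | here s' =>
      simp only [Cx.plug, Fd.node.injEq] at h
      exact absurd h.2.1 (plug_ne_nil M')
    | dn d2 t' s' =>
      simp only [Cx.plug, Fd.node.injEq] at h
      obtain ⟨rfl, h2, rfl⟩ := h
      rcases ih t' h2 with ⟨N, k1, k2⟩ | k
      · left
        exact ⟨N, by rw [k1]; rfl, k2⟩
      · right
        intro c hc hok q
        obtain ⟨D, l1, l2, l3⟩ := k c hc hok q
        refine ⟨.node d3 D (ofF s1), by simp only [Dk.un, l1, ofF_un, Cx.plug], Or.inl ⟨l2, ofF_ok s1⟩, ?_⟩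
        simp only [Dk.psz, ofF_psz]
        omega
    | nx d2 c' t' =>
      simp only [Cx.plug, Fd.node.injEq] at h
      obtain ⟨rfl, rfl, rfl⟩ := h
      right
      intro c hc hok q
      refine ⟨.node d3 (ofC (d', c) M') (onC d q t'), by simp only [Dk.un, ofC_un, hc, onC_un, Cx.plug],
        Or.inr ⟨ofC_ok hok M', onC_one d q t'⟩, ?_⟩
      simp only [Dk.psz, onC_psz, ofC_psz]
      omega
  | nx d3 c3 M' ih =>
    intro t h
    cases t with
    | here s' =>
      simp only [Cx.plug, Fd.node.injEq] at h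
      obtain ⟨rfl, rfl, rfl⟩ := h
      right
      intro c hc hok q
      refine ⟨.pc1 d3 q (ofC (d', c) M'), by simp only [Dk.un, ofC_un, hc, Cx.plug], Or.inl ⟨rfl, ofC_ok hok M'⟩, ?_⟩
      simp only [Dk.psz, ofC_psz]
      omega
    | dn d2 t' s' =>
      simp only [Cx.plug, Fd.node.injEq] at h
      obtain ⟨rfl, rfl, rfl⟩ := h
      right
      intro c hc hok q
      refine ⟨.node d3 (onC d q t') (ofC (d', c) M'), by simp only [Dk.un, ofC_un, hc, onC_un, Cx.plug],
        Or.inl ⟨onC_one d q t', ofC_ok hok M'⟩, ?_⟩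
      simp only [Dk.psz, onC_psz, ofC_psz]
      omega
    | nx d2 c' t' =>
      simp only [Cx.plug, Fd.node.injEq] at h
      obtain ⟨rfl, rfl, h3⟩ := h
      rcases ih t' h3 with ⟨N, k1, k2⟩ | k
      · left
        exact ⟨N, by rw [k1]; rfl, k2⟩
      · right
        intro c hc hok q
        obtain ⟨D, l1, l2, l3⟩ := k c hc hok q
        refine ⟨.node d3 (ofF c3) D, by simp only [Dk.un, l1, ofF_un, Cx.plug], Or.inr ⟨ofF_ok c3, l2⟩, ?_⟩
        simp only [Dk.psz, ofF_psz]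
        omega

/-- **a branch is plugged in at a leaf**; at most one piece is opened -/
theorem one_of {d : Bool} (hm : 1 ≤ m) (D : Dk) : ∀ N : Cx, D.un = N.plug (d, .nil) → D.Ok ε m → ∀ q : Fd,
    ∃ D' : Dk, D'.un = N.plug (d, q) ∧ AEN.One ε m q D' ∧ D.psz + (q.size + 1) ≤ D'.psz + m := by
  induction D with
  | nil => intro N h; exact absurd h.symm (plug_ne_nil N)
  | node d1 c s ihc ihs =>
    intro N h hok q
    obtain ⟨o1, o2⟩ := hok
    cases N with
    | here s' =>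
      simp only [Dk.un, Cx.plug, Fd.node.injEq] at h
      obtain ⟨rfl, h2, rfl⟩ := h
      refine ⟨.pc1 d1 q s, rfl, Or.inl ⟨rfl, o2⟩, ?_⟩
      simp only [Dk.psz, psz_nil h2]
      omega
    | dn d2 t s' =>
      simp only [Dk.un, Cx.plug, Fd.node.injEq] at h
      obtain ⟨rfl, h2, rfl⟩ := h
      obtain ⟨D', k1, k2, k3⟩ := ihc t h2 o1 q
      refine ⟨.node d1 D' s, by simp only [Dk.un, k1, Cx.plug], Or.inl ⟨k2, o2⟩, ?_⟩
      simp only [Dk.psz]
      omega
    | nx d2 c' t =>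
      simp only [Dk.un, Cx.plug, Fd.node.injEq] at h
      obtain ⟨rfl, rfl, h3⟩ := h
      obtain ⟨D', k1, k2, k3⟩ := ihs t h3 o2 q
      refine ⟨.node d1 c D', by simp only [Dk.un, k1, Cx.plug], Or.inr ⟨o1, k2⟩, ?_⟩
      simp only [Dk.psz]
      omega
  | pc1 d1 q1 s ihs =>
    intro N h hok q
    obtain ⟨o1, o2, o3⟩ := hok
    cases N with
    | here s' =>
      simp only [Dk.un, Cx.plug, Fd.node.injEq] at h
      obtain ⟨rfl, rfl, rfl⟩ := h
      refine ⟨.pc1 d1 q s, rfl, Or.inl ⟨rfl, o3⟩, ?_⟩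
      simp only [Dk.psz, Fd.size]
      omega
    | dn d2 t s' =>
      simp only [Dk.un, Cx.plug, Fd.node.injEq] at h
      obtain ⟨rfl, rfl, rfl⟩ := h
      refine ⟨.node d1 (onC d q t) s, by simp only [Dk.un, onC_un, Cx.plug], Or.inl ⟨onC_one d q t, o3⟩, ?_⟩
      simp only [Dk.psz, onC_psz]
      omega
    | nx d2 c' t =>
      simp only [Dk.un, Cx.plug, Fd.node.injEq] at h
      obtain ⟨rfl, rfl, h3⟩ := h
      obtain ⟨D', k1, k2, k3⟩ := ihs t h3 o3 q
      refine ⟨.pc1 d1 q1 D', by simp only [Dk.un, k1, Cx.plug], Or.inr ⟨o1, o2, k2⟩, ?_⟩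
      simp only [Dk.psz]
      omega
  | pc2 d1 M d' c s ihc ihs =>
    intro N h hok q
    obtain ⟨o1, o2, o3, o4⟩ := hok
    cases N with
    | here s' =>
      simp only [Dk.un, Cx.plug, Fd.node.injEq] at h
      exact absurd h.2.1 (plug_ne_nil M)
    | dn d2 t s' =>
      simp only [Dk.un, Cx.plug, Fd.node.injEq] at h
      obtain ⟨rfl, h2, rfl⟩ := h
      rcases open_two (ε := ε) (m := m) M t h2 with ⟨N', k1, k2⟩ | k
      · obtain ⟨D', l1, l2, l3⟩ := ihc N' k2 o3 q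
        refine ⟨.pc2 d1 M d' D' s, ?_, ⟨o1, o2, Or.inl ⟨l2, o4⟩⟩, ?_⟩
        · simp only [Dk.un, l1, Cx.plug, k1, Cx.plug_cmp]
        · simp only [Dk.psz]
          omega
      · obtain ⟨D', l1, l2, l3⟩ := k c rfl o3 q
        refine ⟨.node d1 D' s, by simp only [Dk.un, l1, Cx.plug], Or.inl ⟨l2, o4⟩, ?_⟩
        simp only [Dk.psz]
        omega
    | nx d2 c' t =>
      simp only [Dk.un, Cx.plug, Fd.node.injEq] at h
      obtain ⟨rfl, rfl, h3⟩ := h
      obtain ⟨D', k1, k2, k3⟩ := ihs t h3 o4 q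
      refine ⟨.pc2 d1 M d' c D', by simp only [Dk.un, k1, Cx.plug], ⟨o1, o2, Or.inr ⟨o3, k2⟩⟩, ?_⟩
      simp only [Dk.psz]
      omega

theorem par_plug_nil {α : Type} {P : α → α → Prop} {x : α} {c : Tr α} (M : CT α) : ∀ {v : α}, (M.plug x c).Par P v →
    (M.plug x .nil).Par P v := by
  induction M with
  | here s => rintro v ⟨h1, h2, h3⟩; exact ⟨h1, trivial, h3⟩
  | dn y t s ih => rintro v ⟨h1, h2, h3⟩; exact ⟨h1, ih h2, h3⟩
  | nx y c t ih => rintro v ⟨h1, h2, h3⟩; exact ⟨h1, h2, ih h3⟩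

theorem len_plug_nil {α : Type} {x : α} {c c' : Tr α} (M : CT α) : (M.plug x c).len = (M.plug x c').len := by
  induction M with
  | here s => rfl
  | dn y t s ih => rfl
  | nx y c t ih => simp only [CT.plug, Tr.len, ih]

theorem deg_plug_nil {α : Type} {b : ℕ} {x : α} {c : Tr α} (M : CT α) : (M.plug x c).Deg b → (M.plug x .nil).Deg b := by
  induction M with
  | here s => rintro ⟨h1, h2, h3⟩; exact ⟨Nat.zero_le _, trivial, h3⟩
  | dn y t s ih =>
    rintro ⟨h1, h2, h3⟩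
    exact ⟨by rw [len_plug_nil (c' := c)]; exact h1, ih h2, h3⟩
  | nx y c t ih => rintro ⟨h1, h2, h3⟩; exact ⟨h1, h2, ih h3⟩

/-- **many good pieces outside a further branch** -/
theorem loc_many (b l : ℕ) (hb : 1 ≤ b) {θ : ℝ} (hθ : 0 < θ) : ∃ θ' : ℝ, 0 < θ' ∧ ∀ ε : ℝ, 0 < ε → ∃ r m n₁ : ℕ,
    ∀ {α : Type} (P : α → α → Prop) (f : α → Bool) (Mk : ℕ → α → Prop), (∀ h h', h ≤ h' → ∀ x, Mk h x → Mk h' x) →
      (∀ x y, P x y → Lip Mk x y) →
      (∀ p : ℕ → α, (∀ i ≤ l, P (p i) (p (i + 1))) → Mk r (p 0) → ∀ d, ∃ i ≤ l, f (p (i + 1)) ≠ d) →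
        ∀ (M : CT α) (x : α) (q : Tr α) (v : α), (M.plug x q).len ≤ b → (M.plug x q).Deg b → (M.plug x q).Par P v →
          n₁ ≤ (M.plug x q).size + 1 → θ * ((M.plug x q).size + 1) ≤ M.un.ct (Mk 0) →
            ∃ D : Dk, D.un = (M.plug x q).or f ∧ AEN.One ε m (q.or f) D ∧
              θ' * (D.un.size + 1) + ((q.or f).size + 1) ≤ D.psz := by
  obtain ⟨t, ht⟩ : ∃ t, t = min θ 1 := ⟨_, rfl⟩
  have t0 : 0 < t := by rw [ht]; exact lt_min hθ one_pos
  have tθ : t ≤ θ := by rw [ht]; exact min_le_left _ _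
  have t1 : t ≤ 1 := by rw [ht]; exact min_le_right _ _
  obtain ⟨θ', hθ', h⟩ := loc_end b l hb t0
  refine ⟨θ' * t / 2, by positivity, ?_⟩
  intro ε hε
  obtain ⟨r, m, n₁, h'⟩ := h ε hε
  obtain ⟨n₂, hn₂⟩ := exists_nat_ge ((2 * (m + 1) : ℝ) / (θ' * t))
  obtain ⟨n₃, hn₃⟩ := exists_nat_ge ((n₁ : ℝ) / t)
  refine ⟨r, m + 1, max n₂ n₃, ?_⟩
  intro α P f Mk hmono hLip H M x q v hl hd hP hs hct
  have hs2 : n₂ ≤ (M.plug x q).size + 1 := (le_max_left _ _).trans hs
  have hs3 : n₃ ≤ (M.plug x q).size + 1 := (le_max_right _ _).trans hs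
  have hsz : (M.plug x q).size = M.un.size + (q.size + 1) := size_plugT x q M
  have hsz0 : (M.plug x .nil).size = M.un.size + 1 := by rw [size_plugT]; rfl
  have hctle : (M.un.ct (Mk 0) : ℝ) ≤ M.un.size := by exact_mod_cast ct_le _ _
  have hN0 : (0 : ℝ) ≤ ((M.plug x q).size : ℝ) + 1 := by positivity
  have e0 : t * ((M.plug x q).size + 1) ≤ M.un.ct (Mk 0) := (mul_le_mul_of_nonneg_right tθ hN0).trans hct
  have e1 : t * ((M.plug x q).size + 1) ≤ (M.plug x .nil).size + 1 := by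
    rw [hsz0]
    push_cast
    linarith
  have e2 : ((M.plug x .nil).size : ℝ) + 1 ≤ (M.plug x q).size + 1 := by
    have : (M.plug x .nil).size ≤ (M.plug x q).size := by rw [hsz, hsz0]; omega
    have : ((M.plug x .nil).size : ℝ) ≤ (M.plug x q).size := by exact_mod_cast this
    linarith
  obtain ⟨D₀, k1, k2, k3⟩ := h' P f Mk hmono hLip H (M.plug x .nil) v (by rw [len_plug_nil (c' := q)]; exact hl)
    (deg_plug_nil M hd) (par_plug_nil M hP) (by
      have h1 : (n₁ : ℝ) / t ≤ (M.plug x q).size + 1 := hn₃.trans (by exact_mod_cast hs3)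
      rw [div_le_iff₀ t0, mul_comm] at h1
      exact_mod_cast h1.trans e1) (by
      have h1 : (M.plug x .nil).ct (Mk 0) = M.un.ct (Mk 0) + ((if Mk 0 x then 1 else 0) + 0) := ct_plugT x .nil M
      have h2 : (M.un.ct (Mk 0) : ℝ) ≤ (M.plug x .nil).ct (Mk 0) := by
        rw [h1]
        exact_mod_cast Nat.le_add_right _ _
      have h3 : t * ((M.plug x .nil).size + 1) ≤ t * ((M.plug x q).size + 1) := mul_le_mul_of_nonneg_left e2 t0.le
      linarith)
  have hor : (M.plug x .nil).or f = (M.or f).plug (f x, .nil) := (CT.or_plug f x .nil M).symm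
  have hor' : (M.plug x q).or f = (M.or f).plug (f x, q.or f) := (CT.or_plug f x q M).symm
  have hokm : D₀.Ok ε (m + 1) := by
    have key : ∀ D : Dk, D.Ok ε m → D.Ok ε (m + 1) := by
      intro D
      induction D with
      | nil => intro _; trivial
      | node d c s ihc ihs => rintro ⟨a1, a2⟩; exact ⟨ihc a1, ihs a2⟩
      | pc1 d q s ihs => rintro ⟨a1, a2, a3⟩; exact ⟨a1, by omega, ihs a3⟩
      | pc2 d M d' c s ihc ihs => rintro ⟨a1, a2, a3, a4⟩; exact ⟨a1, by omega, ihc a3, ihs a4⟩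
    exact key D₀ k2
  obtain ⟨D, l1, l2, l3⟩ := one_of (d := f x) (ε := ε) (m := m + 1) (by omega) D₀ (M.or f) (by rw [k1, hor]) hokm (q.or f)
  refine ⟨D, by rw [l1, hor'], l2, ?_⟩
  have hD0 : D₀.un.size = (M.plug x .nil).size := by rw [k1, Tr.or_size]
  have hDs : D.un.size = (M.plug x q).size := by rw [l1, ← hor', Tr.or_size]
  rw [hD0] at k3
  rw [hDs]
  have l3' : (D₀.psz : ℝ) + (((q.or f).size : ℝ) + 1) ≤ D.psz + (m + 1) := by exact_mod_cast l3
  have h4 : θ' * (t * ((M.plug x q).size + 1)) ≤ θ' * ((M.plug x .nil).size + 1) := mul_le_mul_of_nonneg_left e1 hθ'.le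
  have h5 : (2 * (m + 1) : ℝ) ≤ θ' * t * ((M.plug x q).size + 1) := by
    have h1 : (2 * (m + 1) : ℝ) / (θ' * t) ≤ (M.plug x q).size + 1 := hn₂.trans (by exact_mod_cast hs2)
    rwa [div_le_iff₀' (by positivity)] at h1
  nlinarith

end AEW
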